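import Pool.Agent.P.MP_00ec07_co.Inner

/-!
Sampling and the main induction over the pools.
-/

set_option autoImplicit false

namespace Pool.Agent.P.MP_00ec07_co

open Finset

variable {V : Type} [Fintype V]

theorem sample {μ : V → ℝ} (hμ : Prob μ) {ω : ℝ} (hω : ∀ x, μ x ≤ ω) {n0 t : ℕ}
    (hn : 2 * ω * n0 ≤ 1) {P : Finset V → Prop}
    (hP : ∀ U : Finset V, n0 ≤ U.card → ∃ K ⊆ U, K.card = t ∧ P K) (h : V → ℝ)
    (h0 : ∀ x, 0 ≤ h x) :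
    ∃ K : Finset V, K.card = t ∧ P K ∧ (∀ x ∈ K, μ x ≠ 0) ∧
      ∑ x ∈ K, h x ≤ 2 * t * Ex μ h := by
  classical
  set E := Ex μ h with hE
  have hE0 : 0 ≤ E := Ex_nonneg hμ.nonneg h0
  let g : V → Prop := fun x => μ x ≠ 0 ∧ h x ≤ 2 * E
  have hsplit := sum_filter_add_sum_filter_not univ g μ
  rw [hμ.total] at hsplit
  have hbad : ∑ x ∈ univ.filter (fun x => ¬g x), μ x ≤ 1 / 2 := by
    by_contra hcon
    push Not at hcon
    have hex : ∃ x ∈ univ.filter (fun x => ¬g x), 0 < μ x := by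
      by_contra h1
      push Not at h1
      have := sum_nonpos h1
      linarith
    obtain ⟨x0, hx0, hx0'⟩ := hex
    have hlt : ∀ x ∈ univ.filter (fun x => ¬g x), 0 < μ x → μ x * (2 * E) < μ x * h x := by
      intro x hx hx'
      refine mul_lt_mul_of_pos_left ?_ hx'
      by_contra h2
      exact (mem_filter.mp hx).2 ⟨hx'.ne', not_lt.mp h2⟩
    have h1 : ∑ x ∈ univ.filter (fun x => ¬g x), μ x * (2 * E) <
        ∑ x ∈ univ.filter (fun x => ¬g x), μ x * h x := by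
      refine sum_lt_sum (fun x hx => ?_) ⟨x0, hx0, hlt x0 hx0 hx0'⟩
      rcases (hμ.nonneg x).eq_or_lt with h2 | h2
      · rw [← h2]; simp
      · exact (hlt x hx h2).le
    have h2 : ∑ x ∈ univ.filter (fun x => ¬g x), μ x * h x ≤ E :=
      sum_le_sum_of_subset_of_nonneg (filter_subset _ _) fun x _ _ =>
        mul_nonneg (hμ.nonneg x) (h0 x)
    rw [← sum_mul] at h1
    nlinarith
  have hgood : ∑ x ∈ univ.filter g, μ x ≤ (univ.filter g).card * ω := by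
    have := sum_le_card_nsmul (univ.filter g) μ ω fun x _ => hω x
    rwa [nsmul_eq_mul] at this
  have hcard : n0 ≤ (univ.filter g).card := by
    by_contra hcon
    push Not at hcon
    have h1 : ((univ.filter g).card : ℝ) < n0 := by exact_mod_cast hcon
    have h2 : 0 < ω := by
      by_contra h3
      have := mul_nonpos_of_nonneg_of_nonpos (Nat.cast_nonneg (α := ℝ) (univ.filter g).card)
        (not_lt.mp h3)
      linarith
    nlinarith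
  obtain ⟨K, hK, hKc, hKP⟩ := hP _ hcard
  refine ⟨K, hKc, hKP, fun x hx => (mem_filter.mp (hK hx)).2.1, ?_⟩
  have := sum_le_card_nsmul K h (2 * E) fun x hx => (mem_filter.mp (hK hx)).2.2
  rw [nsmul_eq_mul, hKc] at this
  linarith

theorem Ex_sqrt_le {μ a : V → ℝ} (hμ : Prob μ) (ha : ∀ x, 0 ≤ a x) :
    Ex μ (fun x => √(a x)) ≤ √(Ex μ a) := by
  have := sum_sqrt_mul_le univ μ (fun x => μ x * a x) (fun x _ => hμ.nonneg x)
    (fun x _ => mul_nonneg (hμ.nonneg x) (ha x))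
  rw [hμ.total, one_mul] at this
  refine le_trans (le_of_eq (sum_congr rfl fun x _ => ?_)) this
  rw [← mul_assoc, Real.sqrt_mul (mul_self_nonneg _), Real.sqrt_mul_self (hμ.nonneg x)]

theorem Ex_rt_le {μ a : V → ℝ} (hμ : Prob μ) (ha : ∀ x, 0 ≤ a x) :
    Ex μ (fun x => rt (a x)) ≤ rt (Ex μ a) :=
  (Ex_sqrt_le hμ fun _ => Real.sqrt_nonneg _).trans (Real.sqrt_le_sqrt (Ex_sqrt_le hμ ha))

theorem Ex_sum {ι : Type} (μ : V → ℝ) (S : Finset ι) (w : ι → ℝ) (a : ι → V → ℝ) :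
    Ex μ (fun x => ∑ i ∈ S, w i * a i x) = ∑ i ∈ S, w i * Ex μ (a i) := by
  have := Ex_mix S w a μ (fun _ => 1)
  simpa only [one_mul, mix] using this

theorem sample_sum {μ : V → ℝ} (hμ : Prob μ) {ω : ℝ} (hω : ∀ x, μ x ≤ ω) {n0 t : ℕ}
    (hn : 2 * ω * n0 ≤ 1) {P : Finset V → Prop}
    (hP : ∀ U : Finset V, n0 ≤ U.card → ∃ K ⊆ U, K.card = t ∧ P K) {ι : Type} (S : Finset ι)
    (w : ι → ℝ) (hw : ∀ i ∈ S, 0 ≤ w i) (a : ι → V → ℝ) (ha : ∀ i ∈ S, ∀ x, 0 ≤ a i x) :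
    ∃ K : Finset V, K.card = t ∧ P K ∧ (∀ x ∈ K, μ x ≠ 0) ∧
      ∑ i ∈ S, w i * ∑ x ∈ K, rt (a i x) ≤ 2 * t * ∑ i ∈ S, w i * rt (Ex μ (a i)) := by
  obtain ⟨K, h1, h2, h3, h4⟩ := sample hμ hω hn hP (fun x => ∑ i ∈ S, w i * rt (a i x))
    (fun x => sum_nonneg fun i hi => mul_nonneg (hw i hi) (rt_nonneg _))
  refine ⟨K, h1, h2, h3, ?_⟩
  rw [Ex_sum μ S w (fun i x => rt (a i x)), sum_comm] at h4
  simp only [← mul_sum] at h4
  refine h4.trans (mul_le_mul_of_nonneg_left (sum_le_sum fun i hi => ?_) (by positivity))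
  exact mul_le_mul_of_nonneg_left (Ex_rt_le hμ (ha i hi)) (hw i hi)

theorem sample2 {μ : V → ℝ} (hμ : Prob μ) {ω : ℝ} (hω : ∀ x, μ x ≤ ω) {n0 t : ℕ}
    (hn : 2 * ω * n0 ≤ 1) {P Q : Finset V → Prop}
    (hP : ∀ U : Finset V, n0 ≤ U.card → ∃ K ⊆ U, K.card = t ∧ P K)
    (hQ : ∀ U : Finset V, n0 ≤ U.card → ∃ K ⊆ U, K.card = t ∧ Q K) {ι : Type} (S : Finset ι)
    (w : ι → ℝ) (hw : ∀ i ∈ S, 0 ≤ w i) (a b : ι → V → ℝ) (ha : ∀ i ∈ S, ∀ x, 0 ≤ a i x)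
    (hb : ∀ i ∈ S, ∀ x, 0 ≤ b i x) :
    ∃ K J : Finset V, (K.card = t ∧ P K ∧ (∀ x ∈ K, μ x ≠ 0)) ∧
      (J.card = t ∧ Q J ∧ (∀ x ∈ J, μ x ≠ 0)) ∧
      ∑ i ∈ S, w i * ((∑ x ∈ K, rt (a i x)) * ∑ z ∈ J, rt (b i z)) ≤
        (2 * t) ^ 2 * ∑ i ∈ S, w i * (rt (Ex μ (a i)) * rt (Ex μ (b i))) := by
  obtain ⟨K, h1, h2, h3, h4⟩ := sample_sum hμ hω hn hP S (fun i => w i * rt (Ex μ (b i)))
    (fun i hi => mul_nonneg (hw i hi) (rt_nonneg _)) a ha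
  obtain ⟨J, g1, g2, g3, g4⟩ := sample_sum hμ hω hn hQ S (fun i => w i * ∑ x ∈ K, rt (a i x))
    (fun i hi => mul_nonneg (hw i hi) (sum_nonneg fun _ _ => rt_nonneg _)) b hb
  refine ⟨K, J, ⟨h1, h2, h3⟩, ⟨g1, g2, g3⟩, ?_⟩
  have e1 : ∑ i ∈ S, (w i * ∑ x ∈ K, rt (a i x)) * rt (Ex μ (b i)) =
      ∑ i ∈ S, w i * rt (Ex μ (b i)) * ∑ x ∈ K, rt (a i x) :=
    sum_congr rfl fun i _ => by ring
  have e2 : ∑ i ∈ S, w i * rt (Ex μ (b i)) * rt (Ex μ (a i)) =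
      ∑ i ∈ S, w i * (rt (Ex μ (a i)) * rt (Ex μ (b i))) :=
    sum_congr rfl fun i _ => by ring
  simp only [← mul_assoc]
  simp only [← mul_assoc] at e2
  rw [e1] at g4
  rw [e2] at h4
  have := mul_le_mul_of_nonneg_left h4 (by positivity : (0 : ℝ) ≤ 2 * t)
  nlinarith

/-- The weight of a term with `r` remaining indices. -/
noncomputable def WW (t r : ℕ) : ℝ := (2 * (t : ℝ)) ^ (2 * r) * gam ^ (r.choose 2)

theorem WW_nonneg (t r : ℕ) : 0 ≤ WW t r :=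
  mul_nonneg (by positivity) (pow_nonneg gam_pos.le _)

theorem NN_empty (μ : ℕ → V → ℝ) (e : V → ℝ) (A L : Finset ℕ) (κ : V → V → ℝ) {b : ℕ}
    (hμ : Prob (μ b)) :
    NN (μ b) μ (tfun e A b) e (A.erase b) L ∅ κ = ∏ c ∈ A, Ex (μ c) e := by
  unfold NN fac tfun
  simp only [notMem_empty, and_false, if_false, mul_one]
  simp only [mul_comm _ (∏ c ∈ A.erase b, Ex (μ c) fun y => e y)]
  rw [Ex_smul]
  by_cases h : b ∈ A
  · simp only [if_pos h]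
    rw [← mul_prod_erase A _ h, mul_comm]
  · simp only [if_neg h, Ex_const hμ, erase_eq_of_notMem h, mul_one]

theorem NN_out (νb : V → ℝ) (ν : ℕ → V → ℝ) (e : V → ℝ) (A D : Finset ℕ) (κ : V → V → ℝ)
    {b : ℕ} (hν : Prob νb) (h : b ∉ A) :
    NN νb ν (tfun e A b) e (A.erase b) ∅ D κ = ∏ c ∈ A, Ex (ν c) e := by
  unfold NN fac tfun
  simp only [notMem_empty, false_and, if_false, mul_one, if_neg h, one_mul, Ex_const hν,
    erase_eq_of_notMem h]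

theorem NN_in (νb : V → ℝ) (ν : ℕ → V → ℝ) (e : V → ℝ) (A D : Finset ℕ) (κ : V → V → ℝ)
    {b : ℕ} (h : b ∈ A) (hD : A.erase b ⊆ D) :
    NN νb ν (tfun e A b) e (A.erase b) (A.erase b) D κ =
      Ex νb (fun x => e x * ∏ c ∈ A.erase b, Ex (ν c) (fun y => e y * κ x y)) := by
  unfold NN fac tfun
  simp only [if_pos h]
  congr 1
  funext x
  congr 1
  refine prod_congr rfl fun c hc => ?_
  simp only [hc, hD hc, and_self, if_true]

end Pool.Agent.P.MP_00ec07_co
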