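import Mathlib

/-!
Finite weights, contexts (joint decompositions of two weights) and the no-loss inequality.
-/

set_option autoImplicit false

namespace Pool.Agent.P.MP_00ec07_co

open Finset

variable {V : Type} [Fintype V]

/-- A probability weight on a finite type. -/
structure Prob (μ : V → ℝ) : Prop where
  nonneg : ∀ x, 0 ≤ μ x
  total : ∑ x, μ x = 1

/-- The integral of `f` against the weight `μ`. -/
def Ex (μ f : V → ℝ) : ℝ := ∑ x, μ x * f x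

/-- The double integral of `f x * g y * κ x y`. -/
def Bi (μ μ' f g : V → ℝ) (κ : V → V → ℝ) : ℝ :=
  ∑ x, ∑ y, μ x * f x * (μ' y * g y) * κ x y

theorem Ex_nonneg {μ f : V → ℝ} (hμ : ∀ x, 0 ≤ μ x) (hf : ∀ x, 0 ≤ f x) : 0 ≤ Ex μ f :=
  sum_nonneg fun x _ => mul_nonneg (hμ x) (hf x)

theorem Ex_mono {μ f g : V → ℝ} (hμ : ∀ x, 0 ≤ μ x) (h : ∀ x, f x ≤ g x) : Ex μ f ≤ Ex μ g :=
  sum_le_sum fun x _ => mul_le_mul_of_nonneg_left (h x) (hμ x)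

theorem Ex_const {μ : V → ℝ} (hμ : Prob μ) (c : ℝ) : Ex μ (fun _ => c) = c := by
  unfold Ex
  rw [← sum_mul, hμ.total, one_mul]

theorem Ex_le_one {μ f : V → ℝ} (hμ : Prob μ) (h : ∀ x, f x ≤ 1) : Ex μ f ≤ 1 := by
  have := Ex_mono (g := fun _ => (1 : ℝ)) hμ.nonneg h
  rwa [Ex_const hμ] at this

theorem Bi_nonneg {μ μ' f g : V → ℝ} {κ : V → V → ℝ} (hμ : ∀ x, 0 ≤ μ x) (hμ' : ∀ x, 0 ≤ μ' x)
    (hf : ∀ x, 0 ≤ f x) (hg : ∀ x, 0 ≤ g x) (hκ : ∀ x y, 0 ≤ κ x y) : 0 ≤ Bi μ μ' f g κ :=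
  sum_nonneg fun x _ => sum_nonneg fun y _ =>
    mul_nonneg (mul_nonneg (mul_nonneg (hμ x) (hf x)) (mul_nonneg (hμ' y) (hg y))) (hκ x y)

theorem Bi_add_compl (μ μ' f g : V → ℝ) (κ : V → V → ℝ) :
    Bi μ μ' f g κ + Bi μ μ' f g (fun x y => 1 - κ x y) = Ex μ f * Ex μ' g := by
  unfold Bi Ex
  rw [sum_mul_sum, ← sum_add_distrib]
  refine sum_congr rfl fun x _ => ?_
  rw [← sum_add_distrib]
  refine sum_congr rfl fun y _ => ?_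
  ring

theorem Bi_le {μ μ' f g : V → ℝ} {κ : V → V → ℝ} (hμ : ∀ x, 0 ≤ μ x) (hμ' : ∀ x, 0 ≤ μ' x)
    (hf : ∀ x, 0 ≤ f x) (hg : ∀ x, 0 ≤ g x) (hκ : ∀ x y, κ x y ≤ 1) :
    Bi μ μ' f g κ ≤ Ex μ f * Ex μ' g := by
  have h1 := Bi_add_compl μ μ' f g κ
  have h2 : 0 ≤ Bi μ μ' f g (fun x y => 1 - κ x y) :=
    Bi_nonneg hμ hμ' hf hg fun x y => sub_nonneg.mpr (hκ x y)
  linarith

/-- A context: decompositions of `μ` and `μ'` into pieces with matching masses, each piece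
dominated by `M` times its mass times the original weight. -/
structure Ctx (μ μ' : V → ℝ) (M : ℝ) {ρ : Type} (F : Finset ρ) (ν ν' : ρ → V → ℝ)
    (lam : ρ → ℝ) : Prop where
  nn : ∀ i ∈ F, ∀ x, 0 ≤ ν i x
  nn' : ∀ i ∈ F, ∀ x, 0 ≤ ν' i x
  sum : ∀ x, ∑ i ∈ F, ν i x = μ x
  sum' : ∀ x, ∑ i ∈ F, ν' i x = μ' x
  mass : ∀ i ∈ F, ∑ x, ν i x = lam i
  mass' : ∀ i ∈ F, ∑ x, ν' i x = lam i
  dom : ∀ i ∈ F, ∀ x, ν i x ≤ M * lam i * μ x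
  dom' : ∀ i ∈ F, ∀ x, ν' i x ≤ M * lam i * μ' x

theorem Ctx.swap {μ μ' : V → ℝ} {M : ℝ} {ρ : Type} {F : Finset ρ} {ν ν' : ρ → V → ℝ}
    {lam : ρ → ℝ} (h : Ctx μ μ' M F ν ν' lam) : Ctx μ' μ M F ν' ν lam :=
  ⟨h.nn', h.nn, h.sum', h.sum, h.mass', h.mass, h.dom', h.dom⟩

theorem sum_Ex {μ : V → ℝ} {ρ : Type} {F : Finset ρ} {ν : ρ → V → ℝ}
    (h : ∀ x, ∑ i ∈ F, ν i x = μ x) (f : V → ℝ) : ∑ i ∈ F, Ex (ν i) f = Ex μ f := by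
  unfold Ex
  rw [sum_comm]
  refine sum_congr rfl fun x _ => ?_
  rw [← sum_mul, h x]

/-- Cauchy-Schwarz for square roots with hypotheses only on the index set. -/
theorem sum_sqrt_mul_le {ρ : Type} (F : Finset ρ) (a b : ρ → ℝ) (ha : ∀ i ∈ F, 0 ≤ a i)
    (hb : ∀ i ∈ F, 0 ≤ b i) :
    ∑ i ∈ F, √(a i * b i) ≤ √((∑ i ∈ F, a i) * ∑ i ∈ F, b i) := by
  have h := Real.sum_mul_le_sqrt_mul_sqrt F (fun i => √(a i)) (fun i => √(b i))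
  have e1 : ∑ i ∈ F, √(a i) ^ 2 = ∑ i ∈ F, a i :=
    sum_congr rfl fun i hi => Real.sq_sqrt (ha i hi)
  have e2 : ∑ i ∈ F, √(b i) ^ 2 = ∑ i ∈ F, b i :=
    sum_congr rfl fun i hi => Real.sq_sqrt (hb i hi)
  rw [e1, e2, ← Real.sqrt_mul (sum_nonneg ha)] at h
  refine le_trans (le_of_eq ?_) h
  exact sum_congr rfl fun i hi => Real.sqrt_mul (ha i hi) _

/-- The value of a context on a pair of functions, without kernel. -/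
noncomputable def val0 {ρ : Type} (F : Finset ρ) (ν ν' : ρ → V → ℝ) (f g : V → ℝ) : ℝ :=
  ∑ i ∈ F, √(Ex (ν i) f * Ex (ν' i) g)

/-- The value of a context on a pair of functions with kernel `κ`. -/
noncomputable def val {ρ : Type} (F : Finset ρ) (ν ν' : ρ → V → ℝ) (f g : V → ℝ)
    (κ : V → V → ℝ) : ℝ :=
  ∑ i ∈ F, √(Bi (ν i) (ν' i) f g κ)

theorem val0_swap {ρ : Type} (F : Finset ρ) (ν ν' : ρ → V → ℝ) (f g : V → ℝ) :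
    val0 F ν ν' f g = val0 F ν' ν g f := by
  unfold val0
  exact sum_congr rfl fun i _ => by rw [mul_comm]

theorem val_le_val0 {μ μ' : V → ℝ} {M : ℝ} {ρ : Type} {F : Finset ρ} {ν ν' : ρ → V → ℝ}
    {lam : ρ → ℝ} (h : Ctx μ μ' M F ν ν' lam) {f g : V → ℝ} {κ : V → V → ℝ}
    (hf : ∀ x, 0 ≤ f x) (hg : ∀ x, 0 ≤ g x) (hκ : ∀ x y, κ x y ≤ 1) :
    val F ν ν' f g κ ≤ val0 F ν ν' f g :=
  sum_le_sum fun i hi => Real.sqrt_le_sqrt (Bi_le (h.nn i hi) (h.nn' i hi) hf hg hκ)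

/-- No loss. -/
theorem val0_le {μ μ' : V → ℝ} {M : ℝ} {ρ : Type} {F : Finset ρ} {ν ν' : ρ → V → ℝ}
    {lam : ρ → ℝ} (h : Ctx μ μ' M F ν ν' lam) {f g : V → ℝ}
    (hf : ∀ x, 0 ≤ f x) (hg : ∀ x, 0 ≤ g x) :
    val0 F ν ν' f g ≤ √(Ex μ f * Ex μ' g) := by
  have := sum_sqrt_mul_le F (fun i => Ex (ν i) f) (fun i => Ex (ν' i) g)
    (fun i hi => Ex_nonneg (h.nn i hi) hf) (fun i hi => Ex_nonneg (h.nn' i hi) hg)
  rwa [sum_Ex h.sum, sum_Ex h.sum'] at this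

theorem sqrt_mul_le_half {a b : ℝ} (ha : 0 ≤ a) (hb : 0 ≤ b) : √(a * b) ≤ (a + b) / 2 := by
  rw [Real.sqrt_le_iff]
  refine ⟨by positivity, by nlinarith [sq_nonneg (a - b)]⟩

/-- The gap of one piece of a context. -/
noncomputable def gap (ν ν' f g : V → ℝ) (κ : V → V → ℝ) : ℝ :=
  (Ex ν f + Ex ν' g) / 2 - √(Bi ν ν' f g κ)

theorem gap_nonneg {ν ν' f g : V → ℝ} {κ : V → V → ℝ} (hν : ∀ x, 0 ≤ ν x) (hν' : ∀ x, 0 ≤ ν' x)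
    (hf : ∀ x, 0 ≤ f x) (hg : ∀ x, 0 ≤ g x) (hκ : ∀ x y, κ x y ≤ 1) :
    0 ≤ gap ν ν' f g κ := by
  unfold gap
  have h1 := Real.sqrt_le_sqrt (Bi_le hν hν' hf hg hκ)
  have h2 := sqrt_mul_le_half (Ex_nonneg hν hf) (Ex_nonneg hν' hg)
  linarith

theorem val_eq_gap {μ μ' : V → ℝ} {M : ℝ} {ρ : Type} {F : Finset ρ} {ν ν' : ρ → V → ℝ}
    {lam : ρ → ℝ} (h : Ctx μ μ' M F ν ν' lam) {f g : V → ℝ} (κ : V → V → ℝ)
    (hf : Ex μ f = 1) (hg : Ex μ' g = 1) :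
    val F ν ν' f g κ = 1 - ∑ i ∈ F, gap (ν i) (ν' i) f g κ := by
  unfold gap val
  rw [sum_sub_distrib, ← sum_div, sum_add_distrib, sum_Ex h.sum, sum_Ex h.sum', hf, hg]
  ring

/-- A family of normalised densities bounded by `T`. -/
structure Dens (μ : V → ℝ) (T : ℝ) {ι : Type} (S : Finset ι) (d : ι → V → ℝ) : Prop where
  nn : ∀ i ∈ S, ∀ x, 0 ≤ d i x
  le : ∀ i ∈ S, ∀ x, d i x ≤ T
  one : ∀ i ∈ S, Ex μ (d i) = 1

/-- The mixture of a family of densities. -/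
def mix {ι : Type} (S : Finset ι) (π : ι → ℝ) (d : ι → V → ℝ) (x : V) : ℝ :=
  ∑ i ∈ S, π i * d i x

theorem Ex_mix {ι : Type} (S : Finset ι) (π : ι → ℝ) (d : ι → V → ℝ) (μ h : V → ℝ) :
    Ex μ (fun x => h x * mix S π d x) = ∑ i ∈ S, π i * Ex μ (fun x => h x * d i x) := by
  unfold Ex mix
  simp only [mul_sum]
  rw [sum_comm]
  refine sum_congr rfl fun i _ => sum_congr rfl fun x _ => by ring

omit [Fintype V] in
theorem mix_nonneg {ι : Type} {S : Finset ι} {π : ι → ℝ} {d : ι → V → ℝ}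
    (hπ : ∀ i ∈ S, 0 ≤ π i) (hd : ∀ i ∈ S, ∀ x, 0 ≤ d i x) (x : V) : 0 ≤ mix S π d x :=
  sum_nonneg fun i hi => mul_nonneg (hπ i hi) (hd i hi x)

omit [Fintype V] in
theorem mix_le {ι : Type} {S : Finset ι} {π : ι → ℝ} {d : ι → V → ℝ} {T : ℝ}
    (hπ : ∀ i ∈ S, 0 ≤ π i) (hπ1 : ∑ i ∈ S, π i = 1) (hd : ∀ i ∈ S, ∀ x, d i x ≤ T) (x : V) :
    mix S π d x ≤ T := by
  have : mix S π d x ≤ ∑ i ∈ S, π i * T :=
    sum_le_sum fun i hi => mul_le_mul_of_nonneg_left (hd i hi x) (hπ i hi)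
  rwa [← sum_mul, hπ1, one_mul] at this

theorem Ex_mix_one {ι : Type} {S : Finset ι} {π : ι → ℝ} {d : ι → V → ℝ} {μ : V → ℝ} {T : ℝ}
    (hπ1 : ∑ i ∈ S, π i = 1) (hd : Dens μ T S d) : Ex μ (mix S π d) = 1 := by
  have := Ex_mix S π d μ (fun _ => 1)
  simp only [one_mul] at this
  rw [this, ← hπ1]
  exact sum_congr rfl fun i hi => by rw [hd.one i hi, mul_one]

end Pool.Agent.P.MP_00ec07_co
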