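import Mathlib

/-!
Large cliques in every large set, by an exchange argument and the counting method of Kleitman
and Winston.
-/

set_option autoImplicit false

namespace Pool.Agent.P.MP_00ec07_co

open Finset

variable {V : Type} [DecidableEq V]

/-- Every set of `m` vertices contains a clique with at least `k` vertices. -/
def Loc (G : SimpleGraph V) (m k : ℕ) : Prop :=
  ∀ S : Finset V, S.card = m → ∃ T ⊆ S, G.IsClique (T : Set V) ∧ k ≤ T.card

omit [DecidableEq V] in
theorem Loc.exact {G : SimpleGraph V} {m k : ℕ} (H : Loc G m k) (S : Finset V)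
    (hS : m ≤ S.card) : ∃ T ⊆ S, G.IsClique (T : Set V) ∧ T.card = k := by
  obtain ⟨S', h1, h2⟩ := exists_subset_card_eq hS
  obtain ⟨T, h3, h4, h5⟩ := H S' h2
  obtain ⟨T', h6, h7⟩ := exists_subset_card_eq h5
  exact ⟨T', h6.trans (h3.trans h1), h4.subset (coe_subset.mpr h6), h7⟩

theorem low_degree {G : SimpleGraph V} [DecidableRel G.Adj] {m k A j : ℕ} (H : Loc G m k)
    (hj : j < k) (W : Finset V) (hA : ∀ K ⊆ W, G.IsClique (K : Set V) → K.card ≤ A)
    (hA0 : 0 < A) (hW : 2 * (A + m * A ^ j) ≤ W.card) :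
    ∃ v ∈ W, j * W.card ≤ 2 * A * (W.filter (fun u => ¬G.Adj v u)).card := by
  classical
  obtain ⟨I, hI, hmax⟩ := exists_max_image
    (W.powerset.filter fun K : Finset V => G.IsClique (K : Set V))
    card ⟨∅, by simp⟩
  obtain ⟨hIW, hIc⟩ := mem_filter.mp hI
  rw [mem_powerset] at hIW
  have hmax' : ∀ K ⊆ W, G.IsClique (K : Set V) → K.card ≤ I.card := fun K h1 h2 =>
    hmax K (mem_filter.mpr ⟨mem_powerset.mpr h1, h2⟩)
  have hIA := hA I hIW hIc
  have hAj : 1 ≤ A ^ j := Nat.one_le_pow _ _ hA0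
  have hmW : m ≤ W.card := by nlinarith
  obtain ⟨T0, h1, h2, h3⟩ := H.exact W hmW
  have hkI : k ≤ I.card := h3 ▸ hmax' T0 h1 h2
  let fib : Finset V → Finset V := fun J => (W \ I).filter fun v => ∀ u ∈ I \ J, G.Adj v u
  have hfib : ∀ J ∈ I.powersetCard j, (fib J).card ≤ m := by
    intro J hJ
    obtain ⟨hJI, hJc⟩ := mem_powersetCard.mp hJ
    by_contra hcon
    obtain ⟨T, t1, t2, t3⟩ := H.exact (fib J) (not_le.mp hcon).le
    have tW : ∀ v ∈ T, v ∈ W ∧ v ∉ I := fun v hv => mem_sdiff.mp (mem_filter.mp (t1 hv)).1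
    have tA : ∀ v ∈ T, ∀ u ∈ I \ J, G.Adj v u := fun v hv => (mem_filter.mp (t1 hv)).2
    have hdisj : Disjoint (I \ J) T :=
      disjoint_left.mpr fun v hv hv' => (tW v hv').2 (mem_sdiff.mp hv).1
    have := hmax' ((I \ J) ∪ T)
      (union_subset (sdiff_subset.trans hIW) fun v hv => (tW v hv).1) (by
        intro u hu v hv huv
        rcases mem_union.mp (mem_coe.mp hu) with hu | hu <;>
          rcases mem_union.mp (mem_coe.mp hv) with hv | hv
        · exact hIc (mem_coe.mpr (mem_sdiff.mp hu).1) (mem_coe.mpr (mem_sdiff.mp hv).1) huv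
        · exact (tA v hv u hu).symm
        · exact tA u hu v hv
        · exact t2 (mem_coe.mpr hu) (mem_coe.mpr hv) huv)
    rw [card_union_of_disjoint hdisj, card_sdiff_of_subset hJI, t3, hJc] at this
    omega
  let non : V → Finset V := fun v => I.filter fun u => ¬G.Adj u v
  let Low := (W \ I).filter fun v => (non v).card ≤ j
  have hLow : Low.card ≤ m * A ^ j := by
    have hsub : Low ⊆ (I.powersetCard j).biUnion fib := by
      intro v hv
      obtain ⟨v1, v2⟩ := mem_filter.mp hv
      obtain ⟨J, j1, j2, j3⟩ := exists_subsuperset_card_eq (filter_subset _ I) v2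
        (by omega : j ≤ I.card)
      refine mem_biUnion.mpr ⟨J, mem_powersetCard.mpr ⟨j2, j3⟩, mem_filter.mpr ⟨v1, ?_⟩⟩
      intro u hu
      by_contra hc
      exact (mem_sdiff.mp hu).2 (j1 (mem_filter.mpr ⟨(mem_sdiff.mp hu).1, fun h => hc h.symm⟩))
    refine (card_le_card hsub).trans ((card_biUnion_le_card_mul _ _ m hfib).trans ?_)
    rw [card_powersetCard, mul_comm]
    exact Nat.mul_le_mul_left _ ((Nat.choose_le_pow _ _).trans (Nat.pow_le_pow_left hIA _))
  let High := (W \ I).filter fun v => ¬(non v).card ≤ j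
  have hsplit : Low.card + High.card = (W \ I).card := card_filter_add_card_filter_not _
  rw [card_sdiff_of_subset hIW] at hsplit
  have hHigh : W.card ≤ 2 * High.card := by omega
  have hdc : ∑ u ∈ I, (W.filter (fun v => ¬G.Adj u v)).card = ∑ v ∈ W, (non v).card :=
    sum_card_bipartiteAbove_eq_sum_card_bipartiteBelow (s := I) (t := W)
      (fun u v => ¬G.Adj u v)
  have h4 : High.card * j ≤ ∑ v ∈ W, (non v).card := by
    refine le_trans ?_ (sum_le_sum_of_subset ((filter_subset _ _).trans sdiff_subset :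
      High ⊆ W))
    have := card_nsmul_le_sum High (fun v => (non v).card) j fun v hv =>
      (not_le.mp (mem_filter.mp hv).2).le
    rwa [smul_eq_mul] at this
  have hne : I.Nonempty := card_pos.mp (by omega)
  obtain ⟨u, hu, hu'⟩ := exists_le_of_sum_le (s := I) (f := fun _ => j * W.card)
    (g := fun u => 2 * A * (W.filter (fun v => ¬G.Adj u v)).card) hne (by
      rw [sum_const, smul_eq_mul, ← mul_sum, hdc]
      calc I.card * (j * W.card) ≤ A * (j * (2 * High.card)) :=
            Nat.mul_le_mul hIA (Nat.mul_le_mul_left _ hHigh)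
        _ = 2 * A * (High.card * j) := by ring
        _ ≤ _ := Nat.mul_le_mul_left _ h4)
  exact ⟨u, hIW hu, hu'⟩

open Classical in
/-- The number of cliques with `t` vertices inside `W`. -/
noncomputable def cl (G : SimpleGraph V) (W : Finset V) (t : ℕ) : ℕ :=
  ((W.powersetCard t).filter fun S : Finset V => G.IsClique (S : Set V)).card

theorem cl_le_pow (G : SimpleGraph V) (W : Finset V) (t : ℕ) : cl G W t ≤ W.card ^ t := by
  have h : cl G W t ≤ (W.powersetCard t).card := card_le_card fun S hS => by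
    simp only [mem_filter] at hS
    exact hS.1
  rw [card_powersetCard] at h
  exact h.trans (Nat.choose_le_pow _ _)

theorem cl_rec (G : SimpleGraph V) [DecidableRel G.Adj] (W : Finset V) (t : ℕ) (v : V) :
    cl G W (t + 1) ≤ cl G (W.erase v) (t + 1) + cl G (W.filter (G.Adj v)) t := by
  classical
  unfold cl
  rw [← card_filter_add_card_filter_not (fun S => v ∉ S)]
  refine add_le_add (card_le_card fun S hS => ?_) (card_le_card_of_injOn (fun S => S.erase v)
    (fun S hS => ?_) fun S hS S' hS' h => ?_)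
  · simp only [mem_filter, mem_powersetCard] at hS ⊢
    exact ⟨⟨subset_erase.mpr ⟨hS.1.1.1, hS.2⟩, hS.1.1.2⟩, hS.1.2⟩
  · simp only [coe_filter, mem_filter, mem_powersetCard, Set.mem_ofPred_eq, not_not] at hS ⊢
    refine ⟨⟨fun u hu => mem_filter.mpr ⟨hS.1.1.1 (mem_of_mem_erase hu), ?_⟩, ?_⟩,
      hS.1.2.subset (coe_subset.mpr (erase_subset _ _))⟩
    · exact hS.1.2 (mem_coe.mpr hS.2) (mem_coe.mpr (mem_of_mem_erase hu))
        (ne_of_mem_erase hu).symm
    · rw [card_erase_of_mem hS.2, hS.1.1.2]; rfl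
  · simp only [coe_filter, mem_filter, Set.mem_ofPred_eq, not_not] at hS hS'
    rw [← insert_erase hS.2, ← insert_erase hS'.2]
    exact congrArg _ h

theorem kw {G : SimpleGraph V} [DecidableRel G.Adj] {U : Finset V} {R q : ℝ} (hq0 : 0 ≤ q)
    (hRN : R ≤ U.card)
    (hdeg : ∀ W ⊆ U, R ≤ W.card → ∃ v ∈ W, ((W.filter (G.Adj v)).card : ℝ) ≤ q * W.card)
    (s i : ℕ) : ∀ W ⊆ U, W.card * q ^ i ≤ R →
      (cl G W (i + s) : ℝ) ≤ (i + 1) * (U.card : ℝ) ^ i * R ^ s := by
  have base : ∀ (W : Finset V) (t : ℕ), W.card ≤ R → (cl G W t : ℝ) ≤ R ^ t := fun W t h =>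
    le_trans (by exact_mod_cast cl_le_pow G W t) (pow_le_pow_left₀ (Nat.cast_nonneg _) h t)
  induction i with
  | zero =>
    intro W _ h
    simpa using base W s (by simpa using h)
  | succ i ih =>
    have inner : ∀ (n : ℕ) (W : Finset V), W.card = n → W ⊆ U → W.card * q ^ (i + 1) ≤ R →
        (cl G W (i + s + 1) : ℝ) ≤ R ^ (i + s + 1) + n * ((i + 1) * (U.card : ℝ) ^ i * R ^ s) := by
      intro n
      induction n with
      | zero =>
        intro W hW _ h
        have := base W (i + s + 1) (by rw [hW] at h ⊢; simpa using h)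
        simpa using this
      | succ n ihn =>
        intro W hW hWU h
        have hR : 0 ≤ R := le_trans (by positivity) h
        by_cases hc : (W.card : ℝ) ≤ R
        · exact (base W _ hc).trans (le_add_of_nonneg_right (by positivity))
        obtain ⟨v, hv, hv'⟩ := hdeg W hWU (not_le.mp hc).le
        have c1 : (W.erase v).card = n := by rw [card_erase_of_mem hv, hW]; rfl
        have r1 := ihn (W.erase v) c1 ((erase_subset _ _).trans hWU) (le_trans
          (mul_le_mul_of_nonneg_right (by exact_mod_cast card_erase_le) (by positivity)) h)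
        have r2 := ih (W.filter (G.Adj v)) ((filter_subset _ _).trans hWU) (le_trans
          (mul_le_mul_of_nonneg_right hv' (by positivity)) (by rw [pow_succ] at h; linarith))
        have r3 : (cl G W (i + s + 1) : ℝ) ≤ cl G (W.erase v) (i + s + 1) +
            cl G (W.filter (G.Adj v)) (i + s) := by exact_mod_cast cl_rec G W (i + s) v
        push_cast
        linarith
    intro W hWU h
    have hR : 0 ≤ R := le_trans (by positivity) h
    have h1 := inner _ W rfl hWU h
    have h2 : (W.card : ℝ) ≤ U.card := by exact_mod_cast card_le_card hWU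
    have h3 : R ^ (i + 1) ≤ (U.card : ℝ) ^ (i + 1) := pow_le_pow_left₀ hR hRN _
    have h4 := mul_le_mul_of_nonneg_right h3 (pow_nonneg hR s)
    have h5 := mul_le_mul_of_nonneg_right h2
      (by positivity : 0 ≤ ((i : ℝ) + 1) * (U.card : ℝ) ^ i * R ^ s)
    rw [show i + 1 + s = i + s + 1 by ring]
    rw [show R ^ (i + s + 1) = R ^ (i + 1) * R ^ s by ring] at h1
    push_cast
    calc _ ≤ _ := h1
      _ ≤ (U.card : ℝ) ^ (i + 1) * R ^ s + U.card * ((i + 1) * (U.card : ℝ) ^ i * R ^ s) :=
        add_le_add h4 h5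
      _ = _ := by ring

theorem cl_lower {G : SimpleGraph V} {m k : ℕ} (H : Loc G m k) (hkm : k ≤ m) (U : Finset V)
    (hU : m ≤ U.card) : (U.card + 1 - k) ^ k ≤ cl G U k * m ^ k := by
  classical
  have hsub : U.powersetCard m ⊆ ((U.powersetCard k).filter fun S : Finset V =>
      G.IsClique (S : Set V)).biUnion fun K => (U.powersetCard m).filter (K ⊆ ·) := by
    intro S hS
    obtain ⟨s1, s2⟩ := mem_powersetCard.mp hS
    obtain ⟨T, t1, t2, t3⟩ := H.exact S s2.ge
    exact mem_biUnion.mpr ⟨T, mem_filter.mpr ⟨mem_powersetCard.mpr ⟨t1.trans s1, t3⟩, t2⟩,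
      mem_filter.mpr ⟨hS, t1⟩⟩
  have h1 := (card_le_card hsub).trans (card_biUnion_le_card_mul _ _
    ((U.card - k).choose (m - k)) fun K hK => by
      obtain ⟨k1, k2⟩ := mem_powersetCard.mp (mem_filter.mp hK).1
      rw [card_filter_powersetCard_subset K U m k1 (k2 ▸ hkm), k2])
  rw [card_powersetCard] at h1
  have h1' : U.card.choose m ≤ cl G U k * (U.card - k).choose (m - k) := by
    unfold cl; convert h1
  have h2 := Nat.choose_mul (n := U.card) hkm
  have h3 : 0 < (U.card - k).choose (m - k) := Nat.choose_pos (by omega)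
  have h4 : U.card.choose k ≤ cl G U k * m.choose k := by
    refine Nat.le_of_mul_le_mul_right ?_ h3
    rw [← h2]
    calc _ ≤ cl G U k * (U.card - k).choose (m - k) * m.choose k := Nat.mul_le_mul_right _ h1'
      _ = _ := by ring
  calc (U.card + 1 - k) ^ k ≤ U.card.descFactorial k := Nat.pow_sub_le_descFactorial _ _
    _ = k.factorial * U.card.choose k := Nat.descFactorial_eq_factorial_mul_choose _ _
    _ ≤ k.factorial * (cl G U k * m.choose k) := Nat.mul_le_mul_left _ h4
    _ = cl G U k * m.descFactorial k := by rw [Nat.descFactorial_eq_factorial_mul_choose]; ring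
    _ ≤ _ := Nat.mul_le_mul_left _ (Nat.descFactorial_le_pow _ _)

theorem supply {G : SimpleGraph V} {m k A j r n0 : ℕ} (H : Loc G m k) (hj : j < k)
    (hA0 : 0 < A) (hjA : j ≤ A) (hr : 3 * r + 1 ≤ k) (hkm : k ≤ m)
    (hq : (1 - (j : ℝ) / (2 * A)) ^ r * (2 * m) ^ 2 ≤ 1)
    (hn0 : (2 * m) ^ 2 * (2 * (A + m * A ^ j)) ≤ n0) (U : Finset V) (hU : n0 ≤ U.card) :
    ∃ K ⊆ U, K.card = A ∧ G.IsClique (K : Set V) := by
  classical
  by_contra hcon
  have hA : ∀ K ⊆ U, G.IsClique (K : Set V) → K.card ≤ A := by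
    intro K h1 h2
    by_contra h3
    obtain ⟨K', h4, h5⟩ := exists_subset_card_eq (not_le.mp h3).le
    exact hcon ⟨K', h4.trans h1, h5, h2.subset (coe_subset.mpr h4)⟩
  have hm : 1 ≤ m := by omega
  have hm' : (1 : ℝ) ≤ m := by exact_mod_cast hm
  have hA' : (0 : ℝ) < A := by exact_mod_cast hA0
  obtain ⟨N, hN⟩ : ∃ N : ℝ, N = (U.card : ℝ) := ⟨_, rfl⟩
  set q : ℝ := 1 - (j : ℝ) / (2 * A) with hqdef
  have hq0 : 0 ≤ q := by
    have : (j : ℝ) ≤ A := by exact_mod_cast hjA
    rw [hqdef, sub_nonneg, div_le_one (by positivity)]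
    linarith
  have h2m : 2 * m ≤ U.card := by
    have h1 : 1 ≤ 2 * (A + m * A ^ j) := by omega
    have h2 := Nat.mul_le_mul_left ((2 * m) ^ 2) h1
    nlinarith
  have hN0 : 0 < N := by rw [hN]; exact_mod_cast (by omega : 0 < U.card)
  obtain ⟨s, hs⟩ : ∃ s, k = r + (r + s + 1) := ⟨k - (2 * r + 1), by omega⟩
  have hrs : r ≤ s := by omega
  have hkw := kw (G := G) (U := U) (R := N / (2 * m) ^ 2) hq0
    ((div_le_self hN0.le (by nlinarith)).trans hN.le) (fun W hW hW' => by
      have h1 : 2 * (A + m * A ^ j) ≤ W.card := by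
        have h2 : (((2 * m) ^ 2 * (2 * (A + m * A ^ j)) : ℕ) : ℝ) ≤ N := by
          rw [hN]; exact_mod_cast hn0.trans hU
        rw [div_le_iff₀ (by positivity)] at hW'
        have h3 := h2.trans hW'
        push_cast at h3
        rw [mul_comm] at h3
        exact_mod_cast le_of_mul_le_mul_right h3 (by positivity)
      obtain ⟨v, hv, hv'⟩ := low_degree H hj W (fun K hK => hA K (hK.trans hW)) hA0 h1
      refine ⟨v, hv, ?_⟩
      have h2 : ((W.filter (G.Adj v)).card : ℝ) + (W.filter (fun u => ¬G.Adj v u)).card =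
          W.card := by exact_mod_cast card_filter_add_card_filter_not _
      have h3 : (j : ℝ) * W.card ≤ 2 * A * (W.filter (fun u => ¬G.Adj v u)).card := by
        exact_mod_cast hv'
      have h4 : (j : ℝ) / (2 * A) * W.card ≤ (W.filter (fun u => ¬G.Adj v u)).card := by
        rw [div_mul_eq_mul_div, div_le_iff₀ (by positivity)]; linarith
      rw [hqdef]
      linarith) (r + s + 1) r U Subset.rfl (by
        rw [le_div_iff₀ (by positivity), mul_assoc, ← hN]
        exact mul_le_of_le_one_right hN0.le hq)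
  have hlow := cl_lower H hkm U (by omega)
  have h1 : (N / 2) ^ k ≤ (cl G U k : ℝ) * m ^ k := by
    have hlow' : ((U.card + 1 - k : ℕ) : ℝ) ^ k ≤ (cl G U k : ℝ) * m ^ k := by
      exact_mod_cast hlow
    refine le_trans (pow_le_pow_left₀ (by positivity) ?_ k) hlow'
    have : U.card ≤ 2 * (U.card + 1 - k) := by omega
    have : N ≤ 2 * ((U.card + 1 - k : ℕ) : ℝ) := by rw [hN]; exact_mod_cast this
    linarith
  rw [← hs, ← hN] at hkw
  have h2 := h1.trans (mul_le_mul_of_nonneg_right hkw (by positivity))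
  have e1 : (N / 2) ^ k = N ^ k * m ^ k / (2 * m) ^ k := by
    rw [mul_pow, div_pow]; field_simp
  have e2 : ((r : ℝ) + 1) * N ^ r * (N / (2 * m) ^ 2) ^ (r + s + 1) * m ^ k =
      N ^ k * m ^ k / (2 * m) ^ k * ((r + 1) / (2 * m) ^ (s + 1)) := by
    rw [hs, div_pow, ← pow_mul]; field_simp; ring
  rw [e1, e2] at h2
  have h3 : 1 ≤ ((r : ℝ) + 1) / (2 * m) ^ (s + 1) :=
    (le_mul_iff_one_le_right (by positivity)).mp h2
  rw [le_div_iff₀ (by positivity), one_mul] at h3
  have h4 : (2 : ℝ) ^ (s + 1) ≤ (2 * m) ^ (s + 1) := pow_le_pow_left₀ (by norm_num) (by linarith) _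
  have h5 : s + 1 < 2 ^ (s + 1) := Nat.lt_two_pow_self
  have h6 : (r : ℝ) + 1 < 2 ^ (s + 1) := by exact_mod_cast (by omega : r + 1 < 2 ^ (s + 1))
  linarith

end Pool.Agent.P.MP_00ec07_co
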