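import Pool.Agent.P.MP_00ec07_co.Outer
import Pool.Agent.P.MP_00ec07_co.KW

/-!
From the main induction to a set with small clique number or small independence number.
-/

set_option autoImplicit false

namespace Pool.Agent.P.MP_00ec07_co

open Finset

variable {V : Type} [DecidableEq V]

theorem pools (Z : Finset V) (N y : ℕ) (h : y * N ≤ Z.card) :
    ∃ P : ℕ → Finset V, (∀ c < y, P c ⊆ Z ∧ (P c).card = N) ∧
      ∀ c < y, ∀ c' < y, c ≠ c' → Disjoint (P c) (P c') := by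
  induction y with
  | zero => exact ⟨fun _ => ∅, by simp, by simp⟩
  | succ y ih =>
    obtain ⟨P, h1, h2⟩ := ih (le_trans (Nat.mul_le_mul_right _ (Nat.le_succ _)) h)
    have h3 : ((range y).biUnion P).card ≤ y * N := by
      have := card_biUnion_le_card_mul (range y) P N fun c hc => (h1 c (mem_range.mp hc)).2.le
      rwa [card_range] at this
    have h4 : N ≤ (Z \ (range y).biUnion P).card := by
      have := le_card_sdiff ((range y).biUnion P) Z
      rw [Nat.succ_mul] at h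
      omega
    obtain ⟨Q, q1, q2⟩ := exists_subset_card_eq h4
    have q3 : ∀ c < y, Disjoint (P c) Q := fun c hc => disjoint_left.mpr fun v hv hv' =>
      (mem_sdiff.mp (q1 hv')).2 (mem_biUnion.mpr ⟨c, mem_range.mpr hc, hv⟩)
    refine ⟨Function.update P y Q, fun c hc => ?_, fun c hc c' hc' hne => ?_⟩
    · rcases Nat.lt_succ_iff_lt_or_eq.mp hc with hc | rfl
      · rw [Function.update_of_ne hc.ne]; exact h1 c hc
      · rw [Function.update_self]; exact ⟨q1.trans sdiff_subset, q2⟩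
    · rcases Nat.lt_succ_iff_lt_or_eq.mp hc with hc | rfl <;>
        rcases Nat.lt_succ_iff_lt_or_eq.mp hc' with hc' | rfl
      · rw [Function.update_of_ne hc.ne, Function.update_of_ne hc'.ne]; exact h2 c hc c' hc' hne
      · rw [Function.update_of_ne hc.ne, Function.update_self]; exact q3 c hc
      · rw [Function.update_of_ne hc'.ne, Function.update_self]; exact (q3 c' hc').symm
      · exact absurd rfl hne

theorem transversal [Nonempty V] (Y0 : Finset ℕ) (K : ℕ → Finset V) (T : Finset V)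
    (hT : T ⊆ Y0.biUnion K) (h : ∀ c ∈ Y0, ∀ u ∈ T, ∀ v ∈ T, u ∈ K c → v ∈ K c → u = v) :
    ∃ Y ⊆ Y0, Y.card = T.card ∧ ∃ x : ℕ → V, (∀ c ∈ Y, x c ∈ K c ∧ x c ∈ T) ∧
      ∀ c ∈ Y, ∀ c' ∈ Y, c ≠ c' → x c ≠ x c' := by
  have h1 : ∀ v, ∃ c, v ∈ T → c ∈ Y0 ∧ v ∈ K c := fun v => by
    by_cases hv : v ∈ T
    · obtain ⟨c, h1, h2⟩ := mem_biUnion.mp (hT hv)
      exact ⟨c, fun _ => ⟨h1, h2⟩⟩
    · exact ⟨0, fun h => absurd h hv⟩
  choose β hβ using h1
  have h2 : ∀ c, ∃ v, c ∈ T.image β → v ∈ T ∧ β v = c := fun c => by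
    by_cases hc : c ∈ T.image β
    · obtain ⟨v, h1, h2⟩ := mem_image.mp hc
      exact ⟨v, fun _ => ⟨h1, h2⟩⟩
    · exact ⟨Classical.arbitrary V, fun h => absurd h hc⟩
  choose x hx using h2
  refine ⟨T.image β, fun c hc => ?_, card_image_of_injOn fun u hu v hv huv => ?_, x,
    fun c hc => ⟨?_, (hx c hc).1⟩, fun c hc c' hc' hne he => hne ?_⟩
  · obtain ⟨v, h1, rfl⟩ := mem_image.mp hc
    exact (hβ v h1).1
  · exact h (β u) (hβ u hu).1 u hu v hv (hβ u hu).2 (huv ▸ (hβ v hv).2)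
  · have := (hβ _ (hx c hc).1).2
    rwa [(hx c hc).2] at this
  · rw [← (hx c hc).2, ← (hx c' hc').2, he]

/-- All cliques inside `X` are at least `D` times smaller than `X`. -/
def Thin (G : SimpleGraph V) (D : ℕ) (X : Finset V) : Prop :=
  ∀ T ⊆ X, G.IsClique (T : Set V) → T.card * D ≤ X.card

theorem Thin.union {G : SimpleGraph V} {D : ℕ} {X X' : Finset V} (h : Thin G D X)
    (h' : Thin G D X') (hd : Disjoint X X') : Thin G D (X ∪ X') := by
  intro T hT hc
  have h1 := h (T ∩ X) inter_subset_right (hc.subset (coe_subset.mpr inter_subset_left))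
  have h2 := h' (T \ X) (fun v hv => (mem_union.mp (hT (mem_sdiff.mp hv).1)).resolve_left
    (mem_sdiff.mp hv).2) (hc.subset (coe_subset.mpr sdiff_subset))
  rw [card_union_of_disjoint hd, ← card_inter_add_card_sdiff T X, add_mul]
  omega

omit [DecidableEq V] in
theorem meet_once {G : SimpleGraph V} {K T : Finset V} (hK : G.IsClique (K : Set V))
    (hT : Gᶜ.IsClique (T : Set V)) {u v : V} (hu : u ∈ T) (hv : v ∈ T) (hu' : u ∈ K)
    (hv' : v ∈ K) : u = v := by
  by_contra hne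
  exact (hT (mem_coe.mpr hu) (mem_coe.mpr hv) hne).2 (hK (mem_coe.mpr hu') (mem_coe.mpr hv') hne)

theorem dichotomy [Fintype V] {G : SimpleGraph V} {ε M : ℝ} (he : 0 < ε) (he1 : ε ≤ 1)
    (hM : 16 * (ε ^ 4)⁻¹ ^ 2 ≤ M) {n0 t L a N : ℕ} (ht : 0 < t) (hL : 0 < L) (ha : 0 < a)
    (hN : 0 < N) (hn : 2 * M ^ (L * L * a) * n0 ≤ N)
    (hP : ∀ U : Finset V, n0 ≤ U.card → ∃ K ⊆ U, K.card = t ∧ G.IsClique (K : Set V))
    (hQ : ∀ U : Finset V, n0 ≤ U.card → ∃ K ⊆ U, K.card = t ∧ Gᶜ.IsClique (K : Set V))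
    (hΦ : ((L * L * a : ℕ) : ℝ) ^ a * (WW t a +
      ((L * L * a : ℕ) : ℝ) ^ 2 * ((2 * (t : ℝ)) ^ (2 * a) * ε)) < 1)
    (Z : Finset V) (hZ : L * L * a * N ≤ Z.card) :
    ∃ X ⊆ Z, 0 < X.card ∧ X.card ≤ L * L * a * t ∧ (Thin Gᶜ (L * t) X ∨ Thin G (L * t) X) := by
  classical
  set y := L * L * a with hy
  have hy0 : 0 < y := by positivity
  have hN' : (0 : ℝ) < N := by exact_mod_cast hN
  have : Nonempty V := by
    obtain ⟨v, _⟩ := card_pos.mp (lt_of_lt_of_le (by positivity) hZ)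
    exact ⟨v⟩
  obtain ⟨P, hP1, hP2⟩ := pools Z N y hZ
  let μ : ℕ → V → ℝ := fun c x => if x ∈ P c then (N : ℝ)⁻¹ else 0
  have hμ : ∀ c ∈ range y, Prob (μ c) := fun c hc =>
    ⟨fun x => by simp only [μ]; split_ifs <;> positivity, by
      simp only [μ]
      rw [← sum_filter, sum_const, filter_mem_eq_inter, univ_inter, (hP1 c (mem_range.mp hc)).2,
        nsmul_eq_mul, mul_inv_cancel₀ hN'.ne']⟩
  have hM0 : 0 ≤ M := le_trans (by positivity) hM
  obtain ⟨K, J, hKJ, hno⟩ := core (V := V) (ω := M ^ y * (N : ℝ)⁻¹) he he1 hM (n0 := n0) (t := t)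
    (by
      rw [show 2 * (M ^ y * (N : ℝ)⁻¹) * n0 = 2 * M ^ y * n0 / N by ring, div_le_one hN']
      exact hn) hP hQ (fun u v => if G.Adj u v then 0 else 1)
    (fun u v => by dsimp only; split_ifs <;> norm_num) (range y) μ hμ
    (fun c _ x => by
      rw [card_range]
      refine mul_le_mul_of_nonneg_left ?_ (by positivity)
      simp only [μ]; split_ifs
      · exact le_rfl
      · positivity)
    (Finset ℕ) ((range y).powersetCard a) id (fun _ _ => 1) (fun _ _ => 1)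
    (fun i hi => (mem_powersetCard.mp hi).1) (fun _ _ _ => by norm_num) (fun _ _ _ => by norm_num)
    (by
      have e1 : ∀ i ∈ (range y).powersetCard a, WW t (id i).card *
          (rt (∏ c ∈ id i, Ex (μ c) (fun _ => 1)) * rt (∏ c ∈ id i, Ex (μ c) (fun _ => 1))) =
          WW t a := fun i hi => by
        obtain ⟨i1, i2⟩ := mem_powersetCard.mp hi
        rw [id, prod_eq_one fun c hc => Ex_const (hμ c (i1 hc)) 1, rt_one, i2]
        ring
      have e2 : ∀ i ∈ (range y).powersetCard a, (2 * (t : ℝ)) ^ (2 * (id i).card) =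
          (2 * (t : ℝ)) ^ (2 * a) := fun i hi => by rw [id, (mem_powersetCard.mp hi).2]
      rw [sum_congr rfl e1, sum_congr rfl e2, sum_const, sum_const, card_powersetCard, card_range,
        nsmul_eq_mul, nsmul_eq_mul]
      have h1 : (y.choose a : ℝ) ≤ (y : ℝ) ^ a := by exact_mod_cast Nat.choose_le_pow y a
      have h2 := mul_le_mul_of_nonneg_right h1 (add_nonneg (WW_nonneg t a)
        (by positivity : 0 ≤ (y : ℝ) ^ 2 * ((2 * (t : ℝ)) ^ (2 * a) * ε)))
      linarith)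
  have sub : ∀ c ∈ range y, ∀ {W : Finset V}, (∀ x ∈ W, μ c x ≠ 0) → W ⊆ P c := by
    intro c _ W hW x hx
    by_contra h
    exact hW x hx (by simp only [μ, if_neg h])
  have cardU : ∀ (Y : Finset ℕ) (W : ℕ → Finset V), Y ⊆ range y →
      (∀ c ∈ range y, (W c).card = t ∧ ∀ x ∈ W c, μ c x ≠ 0) →
      Y.biUnion W ⊆ Z ∧ (Y.biUnion W).card = Y.card * t := by
    intro Y W hY hW
    refine ⟨biUnion_subset.mpr fun c hc =>
      (sub c (hY hc) (hW c (hY hc)).2).trans (hP1 c (mem_range.mp (hY hc))).1, ?_⟩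
    rw [card_biUnion, sum_congr rfl fun c hc => (hW c (hY hc)).1, sum_const, smul_eq_mul]
    intro c hc c' hc' hne
    exact (hP2 c (mem_range.mp (hY hc)) c' (mem_range.mp (hY hc')) hne).mono
      (sub c (hY hc) (hW c (hY hc)).2) (sub c' (hY hc') (hW c' (hY hc')).2)
  obtain ⟨u1, u2⟩ := cardU (range y) K Subset.rfl fun c hc => ⟨(hKJ c hc).1.1, (hKJ c hc).1.2.2⟩
  rw [card_range] at u2
  by_cases hA : ∀ T ⊆ (range y).biUnion K, Gᶜ.IsClique (T : Set V) → T.card ≤ L * a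
  · refine ⟨_, u1, by rw [u2]; positivity, u2.le, Or.inl fun T h1 h2 => ?_⟩
    rw [u2, hy]
    calc T.card * (L * t) ≤ L * a * (L * t) := Nat.mul_le_mul_right _ (hA T h1 h2)
      _ = _ := by ring
  push Not at hA
  obtain ⟨T0, t1, t2, t3⟩ := hA
  obtain ⟨T, t4, t5⟩ := exists_subset_card_eq t3.le
  have t6 : Gᶜ.IsClique (T : Set V) := t2.subset (coe_subset.mpr t4)
  obtain ⟨Y, y1, y2, x, x1, x2⟩ := transversal (range y) K T (t4.trans t1)
    fun c hc u hu v hv hu' hv' => meet_once (hKJ c hc).1.2.1 t6 hu hv hu' hv'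
  obtain ⟨v1, v2⟩ := cardU Y J y1 fun c hc => ⟨(hKJ c hc).2.1, (hKJ c hc).2.2.2⟩
  rw [y2, t5] at v2
  refine ⟨_, v1, by rw [v2]; positivity, ?_, Or.inr fun Q0 q1 q2 => ?_⟩
  · rw [v2, hy]
    exact Nat.mul_le_mul_right _ (Nat.mul_le_mul_right _ (Nat.le_mul_self L))
  have q3 : Q0.card ≤ a := by
    by_contra hcon
    obtain ⟨Q, q4, q5⟩ := exists_subset_card_eq (not_le.mp hcon).le
    have q6 : G.IsClique (Q : Set V) := q2.subset (coe_subset.mpr q4)
    obtain ⟨Y', w1, w2, z, z1, z2⟩ := transversal Y J Q (q4.trans q1)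
      fun c hc u hu v hv hu' hv' => meet_once q6 (hKJ c (y1 hc)).2.2.1 hu' hv' hu hv
    refine hno Y' (mem_powersetCard.mpr ⟨w1.trans y1, w2.trans q5⟩) x z
      (fun c hc => ⟨(x1 c (w1 hc)).1, (z1 c hc).1, rfl, rfl⟩) fun c hc c' hc' hne => ⟨?_, ?_⟩
    · exact if_neg (t6 (mem_coe.mpr (x1 c (w1 hc)).2) (mem_coe.mpr (x1 c' (w1 hc')).2)
        (x2 c (w1 hc) c' (w1 hc') hne)).2
    · exact if_pos (q6 (mem_coe.mpr (z1 c hc).2) (mem_coe.mpr (z1 c' hc').2) (z2 c hc c' hc' hne))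
  rw [v2]
  calc Q0.card * (L * t) ≤ a * (L * t) := Nat.mul_le_mul_right _ q3
    _ = _ := by ring

theorem greedy [Fintype V] {G : SimpleGraph V} {D s m k n1 : ℕ} (H : Loc G m k) (H' : Loc Gᶜ m k)
    (hd : ∀ Z : Finset V, n1 ≤ Z.card →
      ∃ X ⊆ Z, 0 < X.card ∧ X.card ≤ s ∧ (Thin Gᶜ D X ∨ Thin G D X))
    (hV : n1 + 2 * m ≤ Fintype.card V) : k * D ≤ m + s := by
  have key : ∀ n : ℕ, ∃ X1 X2 : Finset V, Thin Gᶜ D X1 ∧ Thin G D X2 ∧ X1.card ≤ m + s ∧
      X2.card ≤ m + s ∧ (m ≤ X1.card ∨ m ≤ X2.card ∨ n ≤ X1.card + X2.card) := by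
    intro n
    induction n with
    | zero =>
      have : ∀ G' : SimpleGraph V, Thin G' D ∅ := fun G' T hT _ => by
        rw [subset_empty.mp hT]; simp
      exact ⟨∅, ∅, this _, this _, by simp, by simp, by simp⟩
    | succ n ih =>
      obtain ⟨X1, X2, h1, h2, h3, h4, h5⟩ := ih
      by_cases c1 : m ≤ X1.card
      · exact ⟨X1, X2, h1, h2, h3, h4, Or.inl c1⟩
      by_cases c2 : m ≤ X2.card
      · exact ⟨X1, X2, h1, h2, h3, h4, Or.inr (Or.inl c2)⟩
      obtain ⟨X, x1, x2, x3, x4⟩ := hd (univ \ (X1 ∪ X2)) (by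
        have := le_card_sdiff (X1 ∪ X2) univ
        have := card_union_le X1 X2
        rw [card_univ] at *
        omega)
      have d1 : Disjoint X1 X := disjoint_left.mpr fun v hv hv' =>
        (mem_sdiff.mp (x1 hv')).2 (mem_union_left _ hv)
      have d2 : Disjoint X2 X := disjoint_left.mpr fun v hv hv' =>
        (mem_sdiff.mp (x1 hv')).2 (mem_union_right _ hv)
      rcases x4 with x4 | x4
      · have := card_union_of_disjoint d1
        exact ⟨X1 ∪ X, X2, h1.union x4 d1, h2, by omega, h4, by omega⟩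
      · have := card_union_of_disjoint d2
        exact ⟨X1, X2 ∪ X, h1, h2.union x4 d2, h3, by omega, by omega⟩
  obtain ⟨X1, X2, h1, h2, h3, h4, h5⟩ := key (2 * m)
  have h6 : m ≤ X1.card ∨ m ≤ X2.card := by omega
  rcases h6 with h6 | h6
  · obtain ⟨T, t1, t2, t3⟩ := H'.exact X1 h6
    exact t3 ▸ (h1 T t1 t2).trans h3
  · obtain ⟨T, t1, t2, t3⟩ := H.exact X2 h6
    exact t3 ▸ (h2 T t1 t2).trans h4

end Pool.Agent.P.MP_00ec07_co
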