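import Pool.Agent.P.MP_00ec07_co.Step

/-!
All pair steps of one stage.
-/

set_option autoImplicit false

namespace Pool.Agent.P.MP_00ec07_co

open Finset

variable {V : Type} [Fintype V]

/-- The factor of index `c` in the weight of a term, given the point `x` of the current pool. -/
noncomputable def fac (μ : ℕ → V → ℝ) (e : V → ℝ) (L D : Finset ℕ) (κ : V → V → ℝ) (x : V)
    (c : ℕ) : ℝ :=
  Ex (μ c) (fun y => e y * (if c ∈ L ∧ c ∈ D then κ x y else 1))

/-- The weight of a term when the pairs with second index in `D` have been processed. -/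
noncomputable def NN (μb : V → ℝ) (μ : ℕ → V → ℝ) (s0 e : V → ℝ) (A L D : Finset ℕ)
    (κ : V → V → ℝ) : ℝ :=
  Ex μb (fun x => s0 x * ∏ c ∈ A, fac μ e L D κ x c)

theorem fac_mem {μ : ℕ → V → ℝ} {e : V → ℝ} (L D : Finset ℕ) {κ : V → V → ℝ} (x : V) {c : ℕ}
    (hμ : Prob (μ c)) (he : U01 e) (hκ : ∀ x, U01 (κ x)) :
    0 ≤ fac μ e L D κ x c ∧ fac μ e L D κ x c ≤ 1 := by
  have h : ∀ y, 0 ≤ (if c ∈ L ∧ c ∈ D then κ x y else 1) ∧
      (if c ∈ L ∧ c ∈ D then κ x y else 1) ≤ 1 := fun y => by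
    split_ifs
    · exact hκ x y
    · norm_num
  exact ⟨Ex_nonneg hμ.nonneg fun y => mul_nonneg (he y).1 (h y).1,
    Ex_le_one hμ fun y => mul_le_one₀ (he y).2 (h y).1 (h y).2⟩

/-- The left function of a term in the pair step at `c0`. -/
noncomputable def sfun (μ : ℕ → V → ℝ) (s0 e : V → ℝ) (A L D : Finset ℕ) (κ : V → V → ℝ)
    (c0 : ℕ) (x : V) : ℝ :=
  s0 x * ∏ c ∈ A.erase c0, fac μ e L D κ x c

/-- The right function of a term in the pair step at `c0`. -/
noncomputable def tfun (e : V → ℝ) (A : Finset ℕ) (c0 : ℕ) (y : V) : ℝ :=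
  if c0 ∈ A then e y else 1

theorem sfun_U01 {μ : ℕ → V → ℝ} {s0 e : V → ℝ} {A : Finset ℕ} (L D : Finset ℕ)
    {κ : V → V → ℝ} (c0 : ℕ) (hμ : ∀ c ∈ A, Prob (μ c)) (hs : U01 s0) (he : U01 e)
    (hκ : ∀ x, U01 (κ x)) : U01 (sfun μ s0 e A L D κ c0) := fun x => by
  have h := fun c (hc : c ∈ A.erase c0) => fac_mem L D x (hμ c (mem_of_mem_erase hc)) he hκ
  have p0 := prod_nonneg fun c hc => (h c hc).1
  have p1 := prod_le_one (fun c hc => (h c hc).1) fun c hc => (h c hc).2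
  exact ⟨mul_nonneg (hs x).1 p0, mul_le_one₀ (hs x).2 p0 p1⟩

omit [Fintype V] in
theorem tfun_U01 {e : V → ℝ} (A : Finset ℕ) (c0 : ℕ) (he : U01 e) : U01 (tfun e A c0) :=
  fun y => by
    unfold tfun
    split_ifs
    · exact he y
    · norm_num

theorem NN_old (μb : V → ℝ) (μ : ℕ → V → ℝ) (s0 e : V → ℝ) (A L D : Finset ℕ) (κ : V → V → ℝ)
    {c0 : ℕ} (hμ : Prob (μ c0)) (hc : c0 ∉ D) :
    NN μb μ s0 e A L D κ = Ex μb (sfun μ s0 e A L D κ c0) * Ex (μ c0) (tfun e A c0) := by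
  unfold NN
  rw [mul_comm, ← Ex_smul]
  congr 1
  funext x
  unfold sfun tfun
  by_cases h : c0 ∈ A
  · rw [← mul_prod_erase A _ h]
    simp only [if_pos h]
    have : fac μ e L D κ x c0 = Ex (μ c0) (fun y => e y) := by
      unfold fac
      simp only [hc, and_false, if_false, mul_one]
    rw [this]
    ring
  · simp only [if_neg h, erase_eq_of_notMem h, Ex_const hμ, one_mul]

theorem NN_new (μb : V → ℝ) (μ : ℕ → V → ℝ) (s0 e : V → ℝ) {A L : Finset ℕ} (D : Finset ℕ)
    (κ : V → V → ℝ) (c0 : ℕ) {ν0 : V → ℝ} (hν : Prob ν0) (hL : L ⊆ A) :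
    NN μb (Function.update μ c0 ν0) s0 e A L (insert c0 D) κ =
      Bi μb ν0 (sfun μ s0 e A L D κ c0) (tfun e A c0)
        (fun x y => if c0 ∈ L then κ x y else 1) := by
  unfold NN Bi Ex
  refine sum_congr rfl fun x _ => ?_
  have h1 : ∏ c ∈ A.erase c0, fac (Function.update μ c0 ν0) e L (insert c0 D) κ x c =
      ∏ c ∈ A.erase c0, fac μ e L D κ x c := by
    refine prod_congr rfl fun c hc => ?_
    have hne := ne_of_mem_erase hc
    unfold fac
    simp only [Function.update_of_ne hne, mem_insert, hne, false_or]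
  have h2 : ∑ y, μb x * sfun μ s0 e A L D κ c0 x * (ν0 y * tfun e A c0 y) *
      (if c0 ∈ L then κ x y else 1) = μb x * sfun μ s0 e A L D κ c0 x *
        Ex ν0 (fun y => tfun e A c0 y * (if c0 ∈ L then κ x y else 1)) := by
    unfold Ex
    rw [mul_sum]
    exact sum_congr rfl fun y _ => by ring
  rw [h2]
  unfold sfun tfun
  beta_reduce
  by_cases h : c0 ∈ A
  · rw [← mul_prod_erase A _ h, h1]
    simp only [if_pos h]
    have : fac (Function.update μ c0 ν0) e L (insert c0 D) κ x c0 =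
        Ex ν0 (fun y => e y * (if c0 ∈ L then κ x y else 1)) := by
      unfold fac
      simp only [Function.update_self, mem_insert_self, and_true]
    rw [this]
    ring
  · have h' : c0 ∉ L := fun h' => h (hL h')
    rw [erase_eq_of_notMem h] at h1 ⊢
    simp only [if_neg h, if_neg h', Ex_const hν, h1, mul_one]

theorem inner_loop {μb : V → ℝ} {μ : ℕ → V → ℝ} {R : Finset ℕ} (hμb : Prob μb)
    (hμ : ∀ c ∈ R, Prob (μ c)) {ε M : ℝ} (he : 0 < ε) (he1 : ε ≤ 1)
    (hM : 16 * (ε ^ 4)⁻¹ ^ 2 ≤ M) {ι : Type} (S : Finset ι) (w : ι → ℝ)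
    (hw : ∀ i ∈ S, 0 ≤ w i) (A L : ι → Finset ℕ) (hA : ∀ i ∈ S, A i ⊆ R)
    (hL : ∀ i ∈ S, L i ⊆ A i) (s0 e s0' f : ι → V → ℝ) (hs : ∀ i ∈ S, U01 (s0 i))
    (hE : ∀ i ∈ S, U01 (e i)) (hs' : ∀ i ∈ S, U01 (s0' i)) (hF : ∀ i ∈ S, U01 (f i))
    (κ : V → V → ℝ) (hκ : ∀ x, U01 (κ x)) (D : Finset ℕ) (hD : D ⊆ R) :
    ∃ (νb : V → ℝ) (ν : ℕ → V → ℝ), Prob νb ∧ (∀ c ∈ R, Prob (ν c)) ∧
      (∀ x, νb x ≤ M ^ D.card * μb x) ∧ (∀ c ∈ R, ∀ x, ν c x ≤ M * μ c x) ∧
      (∀ c ∉ D, ν c = μ c) ∧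
      ∑ i ∈ S, w i * gam ^ (L i \ D).card * (rt (NN νb ν (s0 i) (e i) (A i) (L i) D κ) *
        rt (NN νb ν (s0' i) (f i) (A i) (L i) D (fun x y => 1 - κ x y))) ≤
      ∑ i ∈ S, w i * gam ^ (L i).card * (rt (NN μb μ (s0 i) (e i) (A i) (L i) ∅ κ) *
        rt (NN μb μ (s0' i) (f i) (A i) (L i) ∅ (fun x y => 1 - κ x y))) +
      D.card * ((∑ i ∈ S, w i) * ε) := by
  have hT : 1 ≤ (ε ^ 4)⁻¹ := one_le_inv_iff₀.mpr ⟨by positivity, pow_le_one₀ he.le he1⟩
  have hM1 : 1 ≤ M := by nlinarith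
  have hκ' : ∀ x, U01 (fun y => 1 - κ x y) := fun x y =>
    ⟨by linarith [(hκ x y).2], by linarith [(hκ x y).1]⟩
  induction D using Finset.induction_on with
  | empty =>
    refine ⟨μb, μ, hμb, hμ, fun x => by simp, fun c hc x =>
      le_mul_of_one_le_left ((hμ c hc).nonneg x) hM1, fun _ _ => rfl, by simp⟩
  | insert c0 D hc0 ih =>
    obtain ⟨νb, ν, h1, h2, h3, h4, h5, h6⟩ := ih ((subset_insert _ _).trans hD)
    have hc0R : c0 ∈ R := hD (mem_insert_self _ _)
    have hνA : ∀ i ∈ S, ∀ c ∈ A i, Prob (ν c) := fun i hi c hc => h2 c (hA i hi hc)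
    obtain ⟨νb', ν0, p1, p2, p3, p4, p5⟩ := pair_step h1 (h2 c0 hc0R) he he1 hM S
      (fun i => w i * gam ^ (L i \ insert c0 D).card)
      (fun i hi => mul_nonneg (hw i hi) (pow_nonneg gam_pos.le _))
      (fun i => sfun ν (s0 i) (e i) (A i) (L i) D κ c0) (fun i => tfun (e i) (A i) c0)
      (fun i => sfun ν (s0' i) (f i) (A i) (L i) D (fun x y => 1 - κ x y) c0)
      (fun i => tfun (f i) (A i) c0)
      (fun i hi => sfun_U01 _ _ _ (hνA i hi) (hs i hi) (hE i hi) hκ)
      (fun i hi => tfun_U01 _ _ (hE i hi))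
      (fun i hi => sfun_U01 _ _ _ (hνA i hi) (hs' i hi) (hF i hi) hκ')
      (fun i hi => tfun_U01 _ _ (hF i hi)) κ (fun x y => (hκ x y).1) (fun x y => (hκ x y).2)
      (fun i => c0 ∈ L i)
    refine ⟨νb', Function.update ν c0 ν0, p1, fun c hc => ?_, fun x => ?_, fun c hc x => ?_,
      fun c hc => ?_, ?_⟩
    · by_cases h : c = c0
      · subst h; rwa [Function.update_self]
      · rw [Function.update_of_ne h]; exact h2 c hc
    · rw [card_insert_of_notMem hc0, pow_succ', mul_assoc]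
      exact (p3 x).trans (mul_le_mul_of_nonneg_left (h3 x) (by linarith))
    · by_cases h : c = c0
      · subst h; rw [Function.update_self, ← h5 c hc0]; exact p4 x
      · rw [Function.update_of_ne h]; exact h4 c hc x
    · have h : c ≠ c0 := fun h => hc (h ▸ mem_insert_self _ _)
      rw [Function.update_of_ne h]
      exact h5 c fun h' => hc (mem_insert_of_mem h')
    · have e1 : ∑ i ∈ S, w i * gam ^ (L i \ insert c0 D).card *
          (rt (NN νb' (Function.update ν c0 ν0) (s0 i) (e i) (A i) (L i) (insert c0 D) κ) *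
          rt (NN νb' (Function.update ν c0 ν0) (s0' i) (f i) (A i) (L i) (insert c0 D)
            (fun x y => 1 - κ x y))) = _ :=
        sum_congr rfl fun i hi => by
          rw [NN_new _ _ _ _ _ _ _ p2 (hL i hi), NN_new _ _ _ _ _ _ _ p2 (hL i hi)]
      rw [e1]
      refine p5.trans ?_
      have e2 : ∀ i ∈ S, w i * gam ^ (L i \ insert c0 D).card * (if c0 ∈ L i then gam else 1) =
          w i * gam ^ (L i \ D).card := by
        intro i _
        by_cases h : c0 ∈ L i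
        · have : L i \ D = insert c0 (L i \ insert c0 D) := by
            ext c
            simp only [mem_sdiff, mem_insert]
            by_cases hc : c = c0
            · subst hc; simp [h, hc0]
            · simp [hc]
          rw [if_pos h, this, card_insert_of_notMem (by simp), pow_succ, mul_assoc]
        · have : L i \ insert c0 D = L i \ D := by
            ext c
            simp only [mem_sdiff, mem_insert]
            by_cases hc : c = c0
            · subst hc; simp [h]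
            · simp [hc]
          rw [if_neg h, this, mul_one]
      have e3 : ∑ i ∈ S, w i * gam ^ (L i \ insert c0 D).card * (if c0 ∈ L i then gam else 1) *
          (rt (Ex νb (sfun ν (s0 i) (e i) (A i) (L i) D κ c0) * Ex (ν c0) (tfun (e i) (A i) c0)) *
          rt (Ex νb (sfun ν (s0' i) (f i) (A i) (L i) D (fun x y => 1 - κ x y) c0) *
            Ex (ν c0) (tfun (f i) (A i) c0))) =
          ∑ i ∈ S, w i * gam ^ (L i \ D).card * (rt (NN νb ν (s0 i) (e i) (A i) (L i) D κ) *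
            rt (NN νb ν (s0' i) (f i) (A i) (L i) D (fun x y => 1 - κ x y))) :=
        sum_congr rfl fun i hi => by
          rw [e2 i hi, NN_old _ _ _ _ _ _ _ _ (h2 c0 hc0R) hc0,
            NN_old _ _ _ _ _ _ _ _ (h2 c0 hc0R) hc0]
      have e4 : ∑ i ∈ S, w i * gam ^ (L i \ insert c0 D).card ≤ ∑ i ∈ S, w i :=
        sum_le_sum fun i hi =>
          mul_le_of_le_one_right (hw i hi) (pow_le_one₀ gam_pos.le gam_le)
      have e5 := mul_le_mul_of_nonneg_right e4 he.le
      rw [e3, card_insert_of_notMem hc0]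
      push_cast
      linarith

end Pool.Agent.P.MP_00ec07_co
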