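import Pool.Agent.P.MP_00ec07_co.Ctx

/-!
The kernel context: when all four mixtures are close to uniform, conditioning on a random item
of the other kind gains a constant.
-/

set_option autoImplicit false

namespace Pool.Agent.P.MP_00ec07_co

open Finset

variable {V : Type} [Fintype V]

theorem eta_pt {p q : ℝ} (hp : 0 ≤ p) (hq : 0 ≤ q) :
    min 1 q + min 1 p - p ≤ (max 1 (max p q))⁻¹ * q ∧
    min 1 p + min 1 q - 1 ≤ (max 1 (max p q))⁻¹ * p * q := by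
  rcases le_total p 1 with h1 | h1 <;> rcases le_total q 1 with h2 | h2
  · rw [min_eq_right h1, min_eq_right h2, max_eq_left (max_le h1 h2)]
    constructor <;> nlinarith
  · rw [min_eq_right h1, min_eq_left h2, max_eq_right (h1.trans h2), max_eq_right h2]
    have : q⁻¹ * q = 1 := inv_mul_cancel₀ (by linarith)
    constructor <;> nlinarith
  · rw [min_eq_left h1, min_eq_right h2, max_eq_left (h2.trans h1), max_eq_right h1]
    have hp0 : 0 < p := by linarith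
    have e : p⁻¹ * p = 1 := inv_mul_cancel₀ hp0.ne'
    constructor
    · rw [inv_mul_eq_div, le_div_iff₀ hp0]; nlinarith
    · nlinarith
  · rw [min_eq_left h1, min_eq_left h2, max_eq_right (le_max_of_le_left h1)]
    have hp0 : 0 < p := by linarith
    have hq0 : 0 < q := by linarith
    rcases le_total p q with h3 | h3
    · rw [max_eq_right h3]
      have : q⁻¹ * q = 1 := inv_mul_cancel₀ hq0.ne'
      constructor <;> nlinarith
    · rw [max_eq_left h3]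
      have e : p⁻¹ * p = 1 := inv_mul_cancel₀ hp0.ne'
      constructor
      · rw [inv_mul_eq_div, le_div_iff₀ hp0]; nlinarith
      · nlinarith

theorem Ex_add (μ f g : V → ℝ) : Ex μ (fun x => f x + g x) = Ex μ f + Ex μ g := by
  unfold Ex; rw [← sum_add_distrib]; exact sum_congr rfl fun x _ => by ring

theorem Ex_sub (μ f g : V → ℝ) : Ex μ (fun x => f x - g x) = Ex μ f - Ex μ g := by
  unfold Ex; rw [← sum_sub_distrib]; exact sum_congr rfl fun x _ => by ring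

theorem Ex_smul (μ f : V → ℝ) (c : ℝ) : Ex μ (fun x => c * f x) = c * Ex μ f := by
  unfold Ex; rw [mul_sum]; exact sum_congr rfl fun x _ => by ring

/-- A damping factor for two mixtures. -/
structure Damp (μ p p' η : V → ℝ) (T : ℝ) : Prop where
  low : ∀ x, 1 ≤ T * η x
  nn : ∀ x, 0 ≤ η x
  le : ∀ x, η x ≤ 1
  l1 : ∀ x, η x * p x ≤ 1
  l2 : ∀ x, η x * p' x ≤ 1
  e1 : 7 / 8 ≤ Ex μ (fun x => η x * p x)
  e2 : 7 / 8 ≤ Ex μ (fun x => η x * p' x)
  e3 : 7 / 8 ≤ Ex μ (fun x => η x * p x * p' x)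

theorem exists_damp {μ p p' : V → ℝ} (hμ : Prob μ) {T : ℝ} (hT : 1 ≤ T) (hp0 : ∀ x, 0 ≤ p x)
    (hp0' : ∀ x, 0 ≤ p' x) (hpT : ∀ x, p x ≤ T) (hpT' : ∀ x, p' x ≤ T) (hp1 : Ex μ p = 1)
    (hp1' : Ex μ p' = 1) (h : 15 / 16 ≤ Ex μ (fun x => min 1 (p x)))
    (h' : 15 / 16 ≤ Ex μ (fun x => min 1 (p' x))) : ∃ η : V → ℝ, Damp μ p p' η T := by
  have hpos : ∀ x, 0 < max 1 (max (p x) (p' x)) := fun x => lt_max_of_lt_left one_pos
  refine ⟨fun x => (max 1 (max (p x) (p' x)))⁻¹, fun x => ?_, fun x => (inv_pos.mpr (hpos x)).le,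
    fun x => inv_le_one_of_one_le₀ (le_max_left _ _), fun x => ?_, fun x => ?_, ?_, ?_, ?_⟩
  · rw [← div_eq_mul_inv, le_div_iff₀ (hpos x), one_mul]
    exact max_le hT (max_le (hpT x) (hpT' x))
  · rw [inv_mul_eq_div, div_le_one (hpos x)]
    exact le_max_of_le_right (le_max_left _ _)
  · rw [inv_mul_eq_div, div_le_one (hpos x)]
    exact le_max_of_le_right (le_max_right _ _)
  · have := Ex_mono (f := fun x => min 1 (p x) + min 1 (p' x) - p' x)
      (g := fun x => (max 1 (max (p x) (p' x)))⁻¹ * p x) hμ.nonneg fun x => by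
        rw [max_comm (p x)]; exact (eta_pt (hp0' x) (hp0 x)).1
    rw [Ex_sub, Ex_add] at this
    change _ + _ - Ex μ p' ≤ _ at this
    linarith
  · have := Ex_mono (f := fun x => min 1 (p' x) + min 1 (p x) - p x)
      (g := fun x => (max 1 (max (p x) (p' x)))⁻¹ * p' x) hμ.nonneg fun x =>
        (eta_pt (hp0 x) (hp0' x)).1
    rw [Ex_sub, Ex_add] at this
    change _ + _ - Ex μ p ≤ _ at this
    linarith
  · have := Ex_mono (f := fun x => min 1 (p x) + min 1 (p' x) - 1)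
      (g := fun x => (max 1 (max (p x) (p' x)))⁻¹ * p x * p' x) hμ.nonneg fun x =>
        (eta_pt (hp0 x) (hp0' x)).2
    rw [Ex_sub, Ex_add, Ex_const hμ] at this
    linarith

theorem half {μ : V → ℝ} (hμ : Prob μ) {T : ℝ} {ι : Type} {S : Finset ι} {π : ι → ℝ}
    (hπ : ∀ i ∈ S, 0 ≤ π i) (hπ1 : ∑ i ∈ S, π i = 1) {d d' : ι → V → ℝ} (hd : Dens μ T S d)
    (hd' : Dens μ T S d') {η : V → ℝ} (hη : Damp μ (mix S π d) (mix S π d') η T)
    {υ υ' : ι → ℝ} (hυ : ∀ i ∈ S, υ i ≤ 1) (hυ' : ∀ i ∈ S, υ' i ≤ 1)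
    (hE : 7 / 8 ≤ ∑ i ∈ S, π i * υ i) (hE' : 7 / 8 ≤ ∑ i ∈ S, π i * υ' i) :
    3 / 32 ≤ ∑ i ∈ S, ∑ j ∈ S, π i * π j *
      (((υ i + υ' j) / 2 - 3 / 4) * Ex μ (fun x => η x * d i x * d' j x)) := by
  set A : ι → ι → ℝ := fun i j => Ex μ (fun x => η x * d i x * d' j x) with hA
  have r1 : ∀ i ∈ S, ∑ j ∈ S, π j * A i j ≤ 1 := by
    intro i hi
    rw [← Ex_mix S π d' μ (fun x => η x * d i x), ← hd.one i hi]
    refine Ex_mono hμ.nonneg fun x => ?_
    have := mul_le_mul_of_nonneg_right (hη.l2 x) (hd.nn i hi x)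
    nlinarith
  have sw : ∀ j, ∑ i ∈ S, π i * A i j = Ex μ (fun x => η x * d' j x * mix S π d x) := by
    intro j
    rw [Ex_mix]
    refine sum_congr rfl fun i _ => ?_
    simp only [hA]
    congr 2
    funext x
    ring
  have r2 : ∀ j ∈ S, ∑ i ∈ S, π i * A i j ≤ 1 := by
    intro j hj
    rw [sw, ← hd'.one j hj]
    refine Ex_mono hμ.nonneg fun x => ?_
    have := mul_le_mul_of_nonneg_right (hη.l1 x) (hd'.nn j hj x)
    nlinarith
  have r3 : 7 / 8 ≤ ∑ j ∈ S, π j * ∑ i ∈ S, π i * A i j := by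
    have := hη.e3
    rw [Ex_mix S π d' μ (fun x => η x * mix S π d x)] at this
    refine this.trans (le_of_eq (sum_congr rfl fun j _ => ?_))
    rw [sw]
    congr 2
    funext x
    ring
  have s1 : ∑ i ∈ S, π i * (1 - υ i) * ∑ j ∈ S, π j * A i j ≤ ∑ i ∈ S, π i * (1 - υ i) :=
    sum_le_sum fun i hi => by
      have := mul_le_mul_of_nonneg_left (r1 i hi)
        (mul_nonneg (hπ i hi) (sub_nonneg.mpr (hυ i hi)))
      linarith
  have s2 : ∑ j ∈ S, π j * (1 - υ' j) * ∑ i ∈ S, π i * A i j ≤ ∑ j ∈ S, π j * (1 - υ' j) :=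
    sum_le_sum fun j hj => by
      have := mul_le_mul_of_nonneg_left (r2 j hj)
        (mul_nonneg (hπ j hj) (sub_nonneg.mpr (hυ' j hj)))
      linarith
  have t1 : ∑ i ∈ S, π i * (1 - υ i) = 1 - ∑ i ∈ S, π i * υ i := by
    simp only [mul_sub, mul_one, sum_sub_distrib, hπ1]
  have t2 : ∑ i ∈ S, π i * (1 - υ' i) = 1 - ∑ i ∈ S, π i * υ' i := by
    simp only [mul_sub, mul_one, sum_sub_distrib, hπ1]
  have key : ∑ i ∈ S, ∑ j ∈ S, π i * π j * (((υ i + υ' j) / 2 - 3 / 4) * A i j) =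
      1 / 4 * (∑ j ∈ S, π j * ∑ i ∈ S, π i * A i j) -
      1 / 2 * (∑ i ∈ S, π i * (1 - υ i) * ∑ j ∈ S, π j * A i j) -
      1 / 2 * (∑ j ∈ S, π j * (1 - υ' j) * ∑ i ∈ S, π i * A i j) := by
    simp only [mul_sum]
    rw [sum_comm (s := S) (t := S) (f := fun j i => 1 / 4 * (π j * (π i * A i j))),
      sum_comm (s := S) (t := S) (f := fun j i => 1 / 2 * (π j * (1 - υ' j) * (π i * A i j))),
      ← sum_sub_distrib, ← sum_sub_distrib]
    refine sum_congr rfl fun i _ => ?_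
    rw [← sum_sub_distrib, ← sum_sub_distrib]
    exact sum_congr rfl fun j _ => by ring
  rw [key]
  linarith

theorem complete {μ μ' : V → ℝ} (hμ : Prob μ) (hμ' : Prob μ') {M : ℝ} (hM : 3 ≤ M) {ρ : Type}
    (F : Finset ρ) (ν ν' : ρ → V → ℝ) (lam : ρ → ℝ) (nn : ∀ i ∈ F, ∀ x, 0 ≤ ν i x)
    (nn' : ∀ i ∈ F, ∀ x, 0 ≤ ν' i x) (mass : ∀ i ∈ F, ∑ x, ν i x = lam i)
    (mass' : ∀ i ∈ F, ∑ x, ν' i x = lam i) (dom : ∀ i ∈ F, ∀ x, ν i x ≤ M * lam i * μ x)
    (dom' : ∀ i ∈ F, ∀ x, ν' i x ≤ M * lam i * μ' x)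
    (hs : ∀ x, ∑ i ∈ F, ν i x ≤ 2 / 3 * μ x) (hs' : ∀ x, ∑ i ∈ F, ν' i x ≤ 2 / 3 * μ' x) :
    Ctx μ μ' M (insertNone F) (fun o => o.elim (fun x => μ x - ∑ i ∈ F, ν i x) ν)
      (fun o => o.elim (fun x => μ' x - ∑ i ∈ F, ν' i x) ν')
      (fun o => o.elim (1 - ∑ i ∈ F, lam i) lam) := by
  have m1 : ∑ x, ∑ i ∈ F, ν i x = ∑ i ∈ F, lam i := by
    rw [sum_comm]; exact sum_congr rfl mass
  have m2 : ∑ x, ∑ i ∈ F, ν' i x = ∑ i ∈ F, lam i := by
    rw [sum_comm]; exact sum_congr rfl mass'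
  have hl : ∑ i ∈ F, lam i ≤ 2 / 3 := by
    rw [← m1]
    have := sum_le_sum fun x (_ : x ∈ univ) => hs x
    rwa [← mul_sum, hμ.total, mul_one] at this
  have hMl : 1 ≤ M * (1 - ∑ i ∈ F, lam i) := by nlinarith
  refine ⟨?_, ?_, fun x => ?_, fun x => ?_, ?_, ?_, ?_, ?_⟩
  · rintro (_ | i) hi x
    · have := hs x; have := hμ.nonneg x; simp only [Option.elim]; linarith
    · exact nn i (some_mem_insertNone.mp hi) x
  · rintro (_ | i) hi x
    · have := hs' x; have := hμ'.nonneg x; simp only [Option.elim]; linarith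
    · exact nn' i (some_mem_insertNone.mp hi) x
  · rw [sum_insertNone]; simp [Option.elim]
  · rw [sum_insertNone]; simp [Option.elim]
  · rintro (_ | i) hi
    · simp only [Option.elim, sum_sub_distrib, hμ.total, m1]
    · exact mass i (some_mem_insertNone.mp hi)
  · rintro (_ | i) hi
    · simp only [Option.elim, sum_sub_distrib, hμ'.total, m2]
    · exact mass' i (some_mem_insertNone.mp hi)
  · rintro (_ | i) hi x
    · have h1 := mul_le_mul_of_nonneg_right hMl (hμ.nonneg x)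
      have h2 : 0 ≤ ∑ i ∈ F, ν i x := sum_nonneg fun i hi => nn i hi x
      simp only [Option.elim]; linarith
    · exact dom i (some_mem_insertNone.mp hi) x
  · rintro (_ | i) hi x
    · have h1 := mul_le_mul_of_nonneg_right hMl (hμ'.nonneg x)
      have h2 : 0 ≤ ∑ i ∈ F, ν' i x := sum_nonneg fun i hi => nn' i hi x
      simp only [Option.elim]; linarith
    · exact dom' i (some_mem_insertNone.mp hi) x

/-- The gap of a tilted piece. -/
theorem gap_piece {μ μ' f g a b : V → ℝ} {κ : V → V → ℝ} {c υ δ : ℝ} (hc : 0 ≤ c)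
    (hυ : 0 ≤ υ) (hυ1 : υ ≤ 1) (hδ : 0 ≤ δ) (hδ1 : δ ≤ 1) :
    c * ((υ * Ex μ (fun x => a x * f x) + δ * Ex μ' (fun x => b x * g x)) / 2 -
        √(Bi μ μ' (fun x => a x * f x) (fun x => b x * g x) κ)) ≤
      gap (fun x => c * υ * a x * μ x) (fun x => c * δ * b x * μ' x) f g κ := by
  have e1 : Ex (fun x => c * υ * a x * μ x) f = c * υ * Ex μ (fun x => a x * f x) := by
    unfold Ex; rw [mul_sum]; exact sum_congr rfl fun x _ => by ring
  have e2 : Ex (fun x => c * δ * b x * μ' x) g = c * δ * Ex μ' (fun x => b x * g x) := by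
    unfold Ex; rw [mul_sum]; exact sum_congr rfl fun x _ => by ring
  have e3 : Bi (fun x => c * υ * a x * μ x) (fun x => c * δ * b x * μ' x) f g κ =
      c ^ 2 * (υ * δ) * Bi μ μ' (fun x => a x * f x) (fun x => b x * g x) κ := by
    unfold Bi
    rw [mul_sum]
    refine sum_congr rfl fun x _ => ?_
    rw [mul_sum]
    exact sum_congr rfl fun y _ => by ring
  unfold gap
  rw [e1, e2, e3, Real.sqrt_mul (by positivity), Real.sqrt_mul (by positivity), Real.sqrt_sq hc]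
  have h1 : √(υ * δ) ≤ 1 := Real.sqrt_le_one.mpr (mul_le_one₀ hυ1 hδ hδ1)
  have h2 := Real.sqrt_nonneg (Bi μ μ' (fun x => a x * f x) (fun x => b x * g x) κ)
  have h3 := mul_le_mul_of_nonneg_right (mul_le_mul_of_nonneg_left h1 hc) h2
  nlinarith

theorem sqrt_add_le {x y A C : ℝ} (hx : 0 ≤ x) (hy : 0 ≤ y) (hA : 0 ≤ A) (hC : 0 ≤ C)
    (h : x + y = A * C) : √x + √y ≤ 3 / 4 * (A + C) := by
  have h1 := Real.sq_sqrt hx
  have h2 := Real.sq_sqrt hy
  have h3 := Real.sqrt_nonneg x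
  have h4 := Real.sqrt_nonneg y
  refine abs_le_of_sq_le_sq' ?_ (by positivity) |>.2
  nlinarith [sq_nonneg (√x - √y), sq_nonneg (A - C), mul_nonneg hA hC]

/-- Facts about one tilted piece. -/
theorem tilt_facts {μ η f : V → ℝ} (hμ : Prob μ) {T : ℝ} (hT : 1 ≤ T) (hlow : ∀ x, 1 ≤ T * η x)
    (hnn : ∀ x, 0 ≤ η x) (hle : ∀ x, η x ≤ 1) (hf0 : ∀ x, 0 ≤ f x) (hfT : ∀ x, f x ≤ T)
    (hf1 : Ex μ f = 1) :
    0 ≤ Ex μ (fun x => η x * f x) ∧ Ex μ (fun x => η x * f x) ≤ 1 ∧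
      ∀ x, η x * f x ≤ T ^ 2 * Ex μ (fun x => η x * f x) := by
  refine ⟨Ex_nonneg hμ.nonneg fun x => mul_nonneg (hnn x) (hf0 x), ?_, fun x => ?_⟩
  · rw [← hf1]
    exact Ex_mono hμ.nonneg fun x => mul_le_of_le_one_left (hf0 x) (hle x)
  · have h1 : 1 ≤ T * Ex μ (fun x => η x * f x) := by
      rw [← Ex_smul, ← hf1]
      refine Ex_mono hμ.nonneg fun y => ?_
      have := mul_le_mul_of_nonneg_right (hlow y) (hf0 y)
      nlinarith
    have h2 : η x * f x ≤ T := (mul_le_of_le_one_left (hf0 x) (hle x)).trans (hfT x)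
    nlinarith

theorem kernel {μ μ' : V → ℝ} (hμ : Prob μ) (hμ' : Prob μ') {T M : ℝ} (hT : 1 ≤ T)
    (hM : T ^ 2 ≤ M) (hM3 : 3 ≤ M) {ι : Type} {S : Finset ι} {π : ι → ℝ} (hπ : ∀ i ∈ S, 0 ≤ π i)
    (hπ1 : ∑ i ∈ S, π i = 1) {d u d' u' : ι → V → ℝ} (hd : Dens μ T S d) (hu : Dens μ' T S u)
    (hd' : Dens μ T S d') (hu' : Dens μ' T S u') {κ : V → V → ℝ} (hκ0 : ∀ x y, 0 ≤ κ x y)
    (hκ1 : ∀ x y, κ x y ≤ 1) {η η' : V → ℝ} (hη : Damp μ (mix S π d) (mix S π d') η T)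
    (hη' : Damp μ' (mix S π u) (mix S π u') η' T) :
    ∃ (ρ : Type) (F : Finset ρ) (ν ν' : ρ → V → ℝ) (lam : ρ → ℝ), Ctx μ μ' M F ν ν' lam ∧
      ∑ i ∈ S, π i * (val F ν ν' (d i) (u i) κ +
        val F ν ν' (d' i) (u' i) (fun x y => 1 - κ x y)) ≤ 2 - 1 / 16 := by
  let dd : ι ⊕ ι → V → ℝ := Sum.elim d d'
  let uu : ι ⊕ ι → V → ℝ := Sum.elim u u'
  let pp : ι ⊕ ι → ℝ := Sum.elim π π
  let F0 : Finset (ι ⊕ ι) := S.disjSum S
  have hpp : ∀ j ∈ F0, 0 ≤ pp j := by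
    rintro (j | j) hj
    · exact hπ j (inl_mem_disjSum.mp hj)
    · exact hπ j (inr_mem_disjSum.mp hj)
  have hdd : Dens μ T F0 dd := by
    refine ⟨?_, ?_, ?_⟩ <;> rintro (j | j) hj
    exacts [hd.nn j (inl_mem_disjSum.mp hj), hd'.nn j (inr_mem_disjSum.mp hj),
      hd.le j (inl_mem_disjSum.mp hj), hd'.le j (inr_mem_disjSum.mp hj),
      hd.one j (inl_mem_disjSum.mp hj), hd'.one j (inr_mem_disjSum.mp hj)]
  have huu : Dens μ' T F0 uu := by
    refine ⟨?_, ?_, ?_⟩ <;> rintro (j | j) hj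
    exacts [hu.nn j (inl_mem_disjSum.mp hj), hu'.nn j (inr_mem_disjSum.mp hj),
      hu.le j (inl_mem_disjSum.mp hj), hu'.le j (inr_mem_disjSum.mp hj),
      hu.one j (inl_mem_disjSum.mp hj), hu'.one j (inr_mem_disjSum.mp hj)]
  let δ : ι ⊕ ι → ℝ := fun j => Ex μ (fun x => η x * dd j x)
  let υ : ι ⊕ ι → ℝ := fun j => Ex μ' (fun x => η' x * uu j x)
  have fδ := fun j (hj : j ∈ F0) => tilt_facts hμ hT hη.low hη.nn hη.le (hdd.nn j hj)
    (hdd.le j hj) (hdd.one j hj)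
  have fυ := fun j (hj : j ∈ F0) => tilt_facts hμ' hT hη'.low hη'.nn hη'.le (huu.nn j hj)
    (huu.le j hj) (huu.one j hj)
  let ν : ι ⊕ ι → V → ℝ := fun j x => pp j / 3 * υ j * (η x * dd j x) * μ x
  let ν' : ι ⊕ ι → V → ℝ := fun j x => pp j / 3 * δ j * (η' x * uu j x) * μ' x
  let lam : ι ⊕ ι → ℝ := fun j => pp j / 3 * υ j * δ j
  have hsumle : ∀ (m e : V → ℝ) (a a' : ι → V → ℝ) (w : ι ⊕ ι → ℝ), (∀ x, 0 ≤ m x) →
      (∀ x, 0 ≤ e x) → (∀ j ∈ F0, ∀ x, 0 ≤ Sum.elim a a' j x) → (∀ j ∈ F0, w j ≤ 1) →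
      (∀ x, e x * mix S π a x ≤ 1) → (∀ x, e x * mix S π a' x ≤ 1) → ∀ x,
      ∑ j ∈ F0, pp j / 3 * w j * (e x * Sum.elim a a' j x) * m x ≤ 2 / 3 * m x := by
    intro m e a a' w hm he ha hw h1 h2 x
    rw [← sum_mul]
    refine mul_le_mul_of_nonneg_right ?_ (hm x)
    have : ∑ j ∈ F0, pp j / 3 * w j * (e x * Sum.elim a a' j x) ≤
        ∑ j ∈ F0, pp j / 3 * (e x * Sum.elim a a' j x) := by
      refine sum_le_sum fun j hj => ?_
      have := mul_le_mul_of_nonneg_left (hw j hj) (mul_nonneg (div_nonneg (hpp j hj)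
        (by norm_num : (0 : ℝ) ≤ 3)) (mul_nonneg (he x) (ha j hj x)))
      nlinarith
    refine this.trans ?_
    rw [sum_disjSum]
    have e1 : ∀ b : ι → V → ℝ, ∑ j ∈ S, π j / 3 * (e x * b j x) = e x * mix S π b x / 3 := by
      intro b
      unfold mix
      rw [mul_sum, sum_div]
      exact sum_congr rfl fun j _ => by ring
    simp only [pp, Sum.elim_inl, Sum.elim_inr]
    rw [e1, e1]
    linarith [h1 x, h2 x]
  have hctx := complete hμ hμ' hM3 F0 ν ν' lam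
    (fun j hj x => mul_nonneg (mul_nonneg (mul_nonneg (div_nonneg (hpp j hj) (by norm_num))
      (fυ j hj).1) (mul_nonneg (hη.nn x) (hdd.nn j hj x))) (hμ.nonneg x))
    (fun j hj x => mul_nonneg (mul_nonneg (mul_nonneg (div_nonneg (hpp j hj) (by norm_num))
      (fδ j hj).1) (mul_nonneg (hη'.nn x) (huu.nn j hj x))) (hμ'.nonneg x))
    (fun j _ => by
      simp only [ν, lam, δ, Ex, mul_sum]
      exact sum_congr rfl fun x _ => by ring)
    (fun j _ => by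
      simp only [ν', lam, υ, Ex, mul_sum, sum_mul]
      exact sum_congr rfl fun x _ => by ring)
    (fun j hj x => by
      have h1 := ((fδ j hj).2.2 x).trans (mul_le_mul_of_nonneg_right hM (fδ j hj).1)
      have h2 := mul_le_mul_of_nonneg_left h1 (mul_nonneg (mul_nonneg (div_nonneg (hpp j hj)
        (by norm_num : (0 : ℝ) ≤ 3)) (fυ j hj).1) (hμ.nonneg x))
      simp only [ν, lam, δ, υ]
      nlinarith)
    (fun j hj x => by
      have h1 := ((fυ j hj).2.2 x).trans (mul_le_mul_of_nonneg_right hM (fυ j hj).1)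
      have h2 := mul_le_mul_of_nonneg_left h1 (mul_nonneg (mul_nonneg (div_nonneg (hpp j hj)
        (by norm_num : (0 : ℝ) ≤ 3)) (fδ j hj).1) (hμ'.nonneg x))
      simp only [ν', lam, δ, υ]
      nlinarith)
    (hsumle μ η d d' υ hμ.nonneg hη.nn hdd.nn (fun j hj => (fυ j hj).2.1) hη.l1 hη.l2)
    (hsumle μ' η' u u' δ hμ'.nonneg hη'.nn huu.nn (fun j hj => (fδ j hj).2.1) hη'.l1 hη'.l2)
  refine ⟨_, _, _, _, _, hctx, ?_⟩
  set A : ι → ι → ℝ := fun i j => Ex μ (fun x => η x * d i x * d' j x) with hA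
  set C : ι → ι → ℝ := fun i j => Ex μ' (fun x => η' x * u i x * u' j x) with hC
  set B1 : ι → ι → ℝ := fun i j =>
    Bi μ μ' (fun x => η x * d i x * d' j x) (fun x => η' x * u i x * u' j x) κ with hB1
  set B2 : ι → ι → ℝ := fun i j => Bi μ μ' (fun x => η x * d i x * d' j x)
    (fun x => η' x * u i x * u' j x) (fun x y => 1 - κ x y) with hB2
  have hS : ∀ i ∈ S, val (insertNone F0) (fun o => o.elim (fun x => μ x - ∑ i ∈ F0, ν i x) ν)
      (fun o => o.elim (fun x => μ' x - ∑ i ∈ F0, ν' i x) ν') (d i) (u i) κ ≤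
      1 - ∑ j ∈ S, π j / 3 * ((υ (Sum.inr j) * A i j + δ (Sum.inr j) * C i j) / 2 -
        √(B1 i j)) := by
    intro i hi
    rw [val_eq_gap hctx κ (hd.one i hi) (hu.one i hi), sum_insertNone, sum_disjSum]
    have g := fun o ho => gap_nonneg (hctx.nn o ho) (hctx.nn' o ho) (hd.nn i hi) (hu.nn i hi) hκ1
    have g0 := g none none_mem_insertNone
    have g1 := sum_nonneg (s := S) fun j hj =>
      g (some (Sum.inl j)) (some_mem_insertNone.mpr (inl_mem_disjSum.mpr hj))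
    have g2 : ∑ j ∈ S, π j / 3 * ((υ (Sum.inr j) * A i j + δ (Sum.inr j) * C i j) / 2 -
        √(B1 i j)) ≤ ∑ j ∈ S, gap (ν (Sum.inr j)) (ν' (Sum.inr j)) (d i) (u i) κ := by
      refine sum_le_sum fun j hj => ?_
      have hj' : Sum.inr j ∈ F0 := inr_mem_disjSum.mpr hj
      have := gap_piece (μ := μ) (μ' := μ') (f := d i) (g := u i) (a := fun x => η x * d' j x)
        (b := fun x => η' x * u' j x) (κ := κ) (c := π j / 3)
        (div_nonneg (hπ j hj) (by norm_num)) (fυ _ hj').1 (fυ _ hj').2.1 (fδ _ hj').1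
        (fδ _ hj').2.1
      simp only [mul_right_comm _ (d' j _) (d i _), mul_right_comm _ (u' j _) (u i _)] at this
      exact this
    simp only [Option.elim] at g0 g1 ⊢
    linarith
  have hD : ∀ j ∈ S, val (insertNone F0) (fun o => o.elim (fun x => μ x - ∑ i ∈ F0, ν i x) ν)
      (fun o => o.elim (fun x => μ' x - ∑ i ∈ F0, ν' i x) ν') (d' j) (u' j)
      (fun x y => 1 - κ x y) ≤
      1 - ∑ i ∈ S, π i / 3 * ((υ (Sum.inl i) * A i j + δ (Sum.inl i) * C i j) / 2 -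
        √(B2 i j)) := by
    intro j hj
    rw [val_eq_gap hctx _ (hd'.one j hj) (hu'.one j hj), sum_insertNone, sum_disjSum]
    have g := fun o ho => gap_nonneg (κ := fun x y => 1 - κ x y) (hctx.nn o ho) (hctx.nn' o ho)
      (hd'.nn j hj) (hu'.nn j hj) (fun x y => by linarith [hκ0 x y])
    have g0 := g none none_mem_insertNone
    have g1 := sum_nonneg (s := S) fun j hj =>
      g (some (Sum.inr j)) (some_mem_insertNone.mpr (inr_mem_disjSum.mpr hj))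
    have g2 : ∑ i ∈ S, π i / 3 * ((υ (Sum.inl i) * A i j + δ (Sum.inl i) * C i j) / 2 -
        √(B2 i j)) ≤ ∑ i ∈ S, gap (ν (Sum.inl i)) (ν' (Sum.inl i)) (d' j) (u' j)
          (fun x y => 1 - κ x y) := by
      refine sum_le_sum fun i hi => ?_
      have hi' : Sum.inl i ∈ F0 := inl_mem_disjSum.mpr hi
      exact gap_piece (μ := μ) (μ' := μ') (f := d' j) (g := u' j) (a := fun x => η x * d i x)
        (b := fun x => η' x * u i x) (κ := fun x y => 1 - κ x y) (c := π i / 3)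
        (div_nonneg (hπ i hi) (by norm_num)) (fυ _ hi').1 (fυ _ hi').2.1 (fδ _ hi').1
        (fδ _ hi').2.1
    simp only [Option.elim] at g0 g1 ⊢
    linarith
  have s1 := sum_le_sum fun i hi => mul_le_mul_of_nonneg_left (hS i hi) (hπ i hi)
  have s2 := sum_le_sum fun i hi => mul_le_mul_of_nonneg_left (hD i hi) (hπ i hi)
  simp only [mul_add, sum_add_distrib]
  have q1 := half hμ hπ hπ1 hd hd' hη (υ := fun i => υ (Sum.inl i)) (υ' := fun i => υ (Sum.inr i))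
    (fun i hi => (fυ _ (inl_mem_disjSum.mpr hi)).2.1)
    (fun i hi => (fυ _ (inr_mem_disjSum.mpr hi)).2.1)
    (hη'.e1.trans (Ex_mix S π u μ' η').le) (hη'.e2.trans (Ex_mix S π u' μ' η').le)
  have q2 := half hμ' hπ hπ1 hu hu' hη' (υ := fun i => δ (Sum.inl i))
    (υ' := fun i => δ (Sum.inr i))
    (fun i hi => (fδ _ (inl_mem_disjSum.mpr hi)).2.1)
    (fun i hi => (fδ _ (inr_mem_disjSum.mpr hi)).2.1)
    (hη.e1.trans (Ex_mix S π d μ η).le) (hη.e2.trans (Ex_mix S π d' μ η).le)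
  have q3 : ∑ i ∈ S, ∑ j ∈ S, π i * π j * (√(B1 i j) + √(B2 i j)) ≤
      ∑ i ∈ S, ∑ j ∈ S, π i * π j * (3 / 4 * (A i j + C i j)) := by
    refine sum_le_sum fun i hi => sum_le_sum fun j hj =>
      mul_le_mul_of_nonneg_left ?_ (mul_nonneg (hπ i hi) (hπ j hj))
    have n1 : ∀ x, 0 ≤ η x * d i x * d' j x := fun x =>
      mul_nonneg (mul_nonneg (hη.nn x) (hd.nn i hi x)) (hd'.nn j hj x)
    have n2 : ∀ x, 0 ≤ η' x * u i x * u' j x := fun x =>
      mul_nonneg (mul_nonneg (hη'.nn x) (hu.nn i hi x)) (hu'.nn j hj x)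
    exact sqrt_add_le (Bi_nonneg hμ.nonneg hμ'.nonneg n1 n2 hκ0)
      (Bi_nonneg hμ.nonneg hμ'.nonneg n1 n2 fun x y => sub_nonneg.mpr (hκ1 x y))
      (Ex_nonneg hμ.nonneg n1) (Ex_nonneg hμ'.nonneg n2) (Bi_add_compl _ _ _ _ _)
  have key : ∑ i ∈ S, π i * (1 - ∑ j ∈ S, π j / 3 *
        ((υ (Sum.inr j) * A i j + δ (Sum.inr j) * C i j) / 2 - √(B1 i j))) +
      ∑ j ∈ S, π j * (1 - ∑ i ∈ S, π i / 3 *
        ((υ (Sum.inl i) * A i j + δ (Sum.inl i) * C i j) / 2 - √(B2 i j))) =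
      2 - 1 / 3 * ((∑ i ∈ S, ∑ j ∈ S, π i * π j *
          (((υ (Sum.inl i) + υ (Sum.inr j)) / 2 - 3 / 4) * A i j)) +
        (∑ i ∈ S, ∑ j ∈ S, π i * π j *
          (((δ (Sum.inl i) + δ (Sum.inr j)) / 2 - 3 / 4) * C i j)) +
        (∑ i ∈ S, ∑ j ∈ S, π i * π j * (3 / 4 * (A i j + C i j))) -
        ∑ i ∈ S, ∑ j ∈ S, π i * π j * (√(B1 i j) + √(B2 i j))) := by
    simp only [mul_sub (π _) 1, mul_one, sum_sub_distrib, hπ1]
    simp only [mul_sum]
    rw [sum_comm (s := S) (t := S) (f := fun j i => π j * (π i / 3 *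
        ((υ (Sum.inl i) * A i j + δ (Sum.inl i) * C i j) / 2 - √(B2 i j))))]
    simp only [← sum_add_distrib, ← sum_sub_distrib, mul_sum]
    rw [show ∀ a b c : ℝ, 1 - a + (1 - b) = 2 - c ↔ a + b = c from fun a b c => by
      constructor <;> intro h <;> linarith]
    simp only [← sum_add_distrib]
    exact sum_congr rfl fun i _ => sum_congr rfl fun j _ => by ring
  linarith

end Pool.Agent.P.MP_00ec07_co
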