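import Pool.Agent.P.MP_00ec07_co.Dicho

/-!
Choice of the parameters.
-/

set_option autoImplicit false

namespace Pool.Agent.P.MP_00ec07_co

open Finset

theorem one_sub_pow_le_half {x : ℝ} {n : ℕ} (h0 : 0 ≤ x) (h1 : x ≤ 1) (h : 1 ≤ n * x) :
    (1 - x) ^ n ≤ 1 / 2 := by
  have a1 : 1 + n * x ≤ (1 + x) ^ n := one_add_mul_le_pow (by linarith) n
  have a2 : (1 - x) ^ n * (1 + x) ^ n ≤ 1 := by
    rw [← mul_pow]
    exact pow_le_one₀ (by nlinarith) (by nlinarith)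
  have a3 : 0 ≤ (1 - x) ^ n := pow_nonneg (by linarith) n
  nlinarith

theorem no_graph {V : Type} [Fintype V] [DecidableEq V] {w : ℕ} (hw : 40000 ≤ w)
    (hp : w ^ 150 ≤ 2 ^ w) (hV : Fintype.card V = 2 ^ (2 * w ^ 16)) (G : SimpleGraph V)
    (H : Loc G (8 * w ^ 48) (w ^ 16)) (H' : Loc Gᶜ (8 * w ^ 48) (w ^ 16)) : False := by
  have hw1 : 1 ≤ w := by omega
  have mono : ∀ {a b : ℕ}, a ≤ b → w ^ a ≤ w ^ b := fun h => Nat.pow_le_pow_right hw1 h
  have step : ∀ (c a : ℕ), c ≤ 40000 → c * w ^ a ≤ w ^ (a + 1) := fun c a hc => by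
    rw [pow_succ, mul_comm]; exact Nat.mul_le_mul_left _ (by omega)
  have poly : ∀ (c a : ℕ), c ≤ 40000 → a < 150 → c * w ^ a ≤ 2 ^ w := fun c a hc ha =>
    (step c a hc).trans ((mono ha).trans hp)
  have two : ∀ {a b : ℕ}, a ≤ b → 2 ^ a ≤ 2 ^ b := fun h => Nat.pow_le_pow_right two_pos h
  have pos : ∀ a : ℕ, 0 < w ^ a := fun a => Nat.pow_pos hw1
  have hw15 : w ≤ w ^ 15 := by simpa using mono (by norm_num : 1 ≤ 15)
  have hw3 : w ≤ w ^ 3 := by simpa using mono (by norm_num : 1 ≤ 3)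
  have hwR : (0 : ℝ) < w := by exact_mod_cast hw1
  have hq : (1 - ((w ^ 14 : ℕ) : ℝ) / (2 * ((w ^ 28 : ℕ) : ℝ))) ^ (2 * w ^ 15) *
      (2 * ((8 * w ^ 48 : ℕ) : ℝ)) ^ 2 ≤ 1 := by
    have e : ((w ^ 14 : ℕ) : ℝ) / (2 * ((w ^ 28 : ℕ) : ℝ)) = 1 / (2 * (w : ℝ) ^ 14) := by
      push_cast; field_simp
    have h14 : (1 : ℝ) ≤ (w : ℝ) ^ 14 := one_le_pow₀ (by exact_mod_cast hw1)
    have h1 := one_sub_pow_le_half (x := 1 / (2 * (w : ℝ) ^ 14)) (n := 2 * w ^ 14) (by positivity)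
      (by rw [div_le_one (by positivity)]; linarith) (by push_cast; field_simp; exact le_rfl)
    have h0 : 0 ≤ 1 - 1 / (2 * (w : ℝ) ^ 14) := by
      rw [sub_nonneg, div_le_one (by positivity)]; linarith
    have h2 := pow_le_pow_left₀ (pow_nonneg h0 _) h1 w
    rw [← pow_mul, show 2 * w ^ 14 * w = 2 * w ^ 15 by ring] at h2
    have h3 : (2 * ((8 * w ^ 48 : ℕ) : ℝ)) ^ 2 ≤ 2 ^ w := by
      have := poly 256 96 (by norm_num) (by norm_num)
      rw [show 256 * w ^ 96 = (2 * (8 * w ^ 48)) ^ 2 by ring] at this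
      exact_mod_cast this
    rw [e]
    refine (mul_le_mul h2 h3 (by positivity) (by positivity)).trans (le_of_eq ?_)
    rw [← mul_pow]; norm_num
  have hn0 : (2 * (8 * w ^ 48)) ^ 2 * (2 * (w ^ 28 + 8 * w ^ 48 * (w ^ 28) ^ w ^ 14)) ≤
      2 ^ (2 * w ^ 15) := by
    have h1 : (w ^ 28) ^ w ^ 14 ≤ 2 ^ w ^ 15 := by
      have := Nat.pow_le_pow_left (poly 1 28 (by norm_num) (by norm_num)) (w ^ 14)
      rwa [one_mul, ← pow_mul 2, show w * w ^ 14 = w ^ 15 by ring] at this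
    have h2 : w ^ 28 ≤ 8 * w ^ 48 * (w ^ 28) ^ w ^ 14 := by
      have h3 : 1 ≤ (w ^ 28) ^ w ^ 14 := Nat.one_le_pow _ _ (pos 28)
      have h4 := mono (by norm_num : 28 ≤ 48)
      calc w ^ 28 ≤ 8 * w ^ 48 * 1 := by omega
        _ ≤ _ := Nat.mul_le_mul_left _ h3
    calc _ ≤ (2 * (8 * w ^ 48)) ^ 2 * (2 * (2 * (8 * w ^ 48 * (w ^ 28) ^ w ^ 14))) :=
          Nat.mul_le_mul_left _ (by omega)
      _ = 8192 * w ^ 144 * (w ^ 28) ^ w ^ 14 := by ring
      _ ≤ 2 ^ w ^ 15 * 2 ^ w ^ 15 :=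
          Nat.mul_le_mul ((poly 8192 144 (by norm_num) (by norm_num)).trans (two hw15)) h1
      _ = _ := by rw [← pow_add, two_mul]
  have hj : w ^ 14 < w ^ 16 := Nat.pow_lt_pow_right (by omega) (by norm_num)
  have hr : 3 * (2 * w ^ 15) + 1 ≤ w ^ 16 := by
    have : 7 * w ^ 15 ≤ w ^ 16 := step 7 15 (by norm_num)
    have := pos 15
    omega
  have hkm : w ^ 16 ≤ 8 * w ^ 48 := by
    have := mono (by norm_num : 16 ≤ 48)
    omega
  have sup := supply H hj (pos 28) (mono (by norm_num : 14 ≤ 28)) hr hkm hq hn0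
  have sup' := supply H' hj (pos 28) (mono (by norm_num : 14 ≤ 28)) hr hkm hq hn0
  have hy : w ^ 5 * w ^ 5 * w ^ 2 = w ^ 12 := by ring
  have dich := dichotomy (G := G) (ε := (1 / 2) ^ (3 * w ^ 3)) (M := 2 ^ (25 * w ^ 3))
    (n0 := 2 ^ (2 * w ^ 15)) (t := w ^ 28) (L := w ^ 5) (a := w ^ 2) (N := 2 ^ (28 * w ^ 15))
    (by positivity) (pow_le_one₀ (by norm_num) (by norm_num))
    (by
      have e : (16 : ℝ) * ((((1 : ℝ) / 2) ^ (3 * w ^ 3)) ^ 4)⁻¹ ^ 2 = 2 ^ (4 + 24 * w ^ 3) := by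
        rw [one_div, inv_pow (2 : ℝ), inv_pow ((2 : ℝ) ^ (3 * w ^ 3)), inv_inv, ← pow_mul, ← pow_mul,
          pow_add]
        congr 1
        · norm_num
        · congr 1; ring
      rw [e]
      exact pow_le_pow_right₀ (by norm_num) (by omega))
    (pos 28) (pos 5) (pos 2) (by positivity)
    (by
      rw [hy, ← pow_mul]
      push_cast
      rw [← pow_succ', ← pow_add]
      refine pow_le_pow_right₀ (by norm_num) ?_
      rw [show 25 * w ^ 3 * w ^ 12 = 25 * w ^ 15 by ring]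
      omega)
    sup sup'
    (by
      rw [hy]
      have b1 : ((w ^ 12 : ℕ) : ℝ) ^ w ^ 2 * (2 * ((w ^ 28 : ℕ) : ℝ)) ^ (2 * w ^ 2) ≤
          2 ^ w ^ 3 := by
        have := Nat.pow_le_pow_left (poly 4 68 (by norm_num) (by norm_num)) (w ^ 2)
        rw [← pow_mul 2, show w * w ^ 2 = w ^ 3 by ring,
          show 4 * w ^ 68 = w ^ 12 * (2 * w ^ 28) ^ 2 by ring, mul_pow, ← pow_mul (2 * w ^ 28)]
          at this
        exact_mod_cast this
      have b2 : gam ^ (w ^ 2).choose 2 ≤ (1 / 2) ^ (2 * w ^ 3) := by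
        have g1 : gam ^ 5000 ≤ 1 / 2 := by
          have := one_sub_pow_le_half (x := 1 / 5000) (n := 5000) (by norm_num) (by norm_num)
            (by norm_num)
          rwa [show (1 : ℝ) - 1 / 5000 = gam by unfold gam; norm_num] at this
        have g2 := pow_le_pow_left₀ (pow_nonneg gam_pos.le _) g1 (2 * w ^ 3)
        rw [← pow_mul] at g2
        refine le_trans (pow_le_pow_of_le_one gam_pos.le gam_le ?_) g2
        rw [Nat.choose_two_right, Nat.le_div_iff_mul_le two_pos]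
        have g3 := step 40000 3 le_rfl
        have g4 : w ^ 2 ≤ 2 * (w ^ 2 - 1) := by
          have := step 2 1 (by norm_num)
          rw [pow_one] at this
          norm_num at this
          omega
        have g5 := Nat.mul_le_mul_left (w ^ 2) g4
        rw [show w ^ 2 * w ^ 2 = w ^ (3 + 1) by ring, mul_left_comm] at g5
        omega
      have b3 : ((w ^ 12 : ℕ) : ℝ) ^ 2 * (1 / 2) ^ (3 * w ^ 3) ≤ (1 / 2) ^ (2 * w ^ 3) := by
        have c1 : ((w ^ 12 : ℕ) : ℝ) ^ 2 ≤ 2 ^ w ^ 3 := by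
          have := (poly 1 24 (by norm_num) (by norm_num)).trans (two hw3)
          rw [show 1 * w ^ 24 = (w ^ 12) ^ 2 by ring] at this
          exact_mod_cast this
        refine (mul_le_mul_of_nonneg_right c1 (by positivity)).trans (le_of_eq ?_)
        rw [show 3 * w ^ 3 = w ^ 3 + 2 * w ^ 3 by ring, pow_add, ← mul_assoc, ← mul_pow]
        norm_num
      have b4 : (2 : ℝ) ^ w ^ 3 * (1 / 2) ^ (2 * w ^ 3) ≤ 1 / 4 := by
        rw [two_mul, pow_add, ← mul_assoc, ← mul_pow]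
        norm_num
        refine (pow_le_pow_of_le_one (by norm_num) (by norm_num) (by omega : 2 ≤ w ^ 3)).trans ?_
        norm_num
      unfold WW
      have b5 := mul_le_mul b1 (add_le_add b2 b3)
        (add_nonneg (pow_nonneg gam_pos.le _) (by positivity)) (by positivity)
      linarith)
  have fin := greedy H H' dich (by
    rw [hV, hy]
    have c1 := (poly 1 12 (by norm_num) (by norm_num)).trans (two hw15)
    have c2 := (poly 16 48 (by norm_num) (by norm_num)).trans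
      (two (by omega : w ≤ 29 * w ^ 15))
    have c3 : w ^ 12 * 2 ^ (28 * w ^ 15) ≤ 2 ^ (29 * w ^ 15) := by
      rw [show 29 * w ^ 15 = w ^ 15 + 28 * w ^ 15 by ring, pow_add]
      exact Nat.mul_le_mul_right _ (by omega)
    have c4 : 2 ^ (29 * w ^ 15 + 1) ≤ 2 ^ (2 * w ^ 16) := two (by
      have : 30 * w ^ 15 ≤ w ^ 16 := step 30 15 (by norm_num)
      omega)
    rw [pow_succ] at c4
    omega)
  rw [hy, show w ^ 16 * (w ^ 5 * w ^ 28) = w ^ (48 + 1) by ring,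
    show w ^ 12 * w ^ 28 = w ^ 40 by ring] at fin
  have := step 10 48 (by norm_num)
  have := mono (by norm_num : 40 ≤ 48)
  have := pos 48
  omega

theorem exists_w (N : ℕ) : ∃ w : ℕ, N ≤ w ∧ 40000 ≤ w ∧ w ^ 150 ≤ 2 ^ w := by
  have h : ∀ p : ℕ, 150 * (p + 16) ≤ 2 ^ (p + 16) := by
    intro p
    induction p with
    | zero => norm_num
    | succ p ih =>
      rw [show p + 1 + 16 = p + 16 + 1 by ring, pow_succ]
      omega
  refine ⟨2 ^ (N + 16), ?_, ?_, ?_⟩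
  · have := h N; omega
  · exact le_trans (by norm_num) (Nat.pow_le_pow_right two_pos (Nat.le_add_left 16 N))
  · rw [← pow_mul, mul_comm]
    exact Nat.pow_le_pow_right two_pos (h N)

end Pool.Agent.P.MP_00ec07_co
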