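import Pool.Agent.P.MP_00ec07_co.Core

/-!
The main induction over the pools.
-/

set_option autoImplicit false

namespace Pool.Agent.P.MP_00ec07_co

open Finset

variable {V : Type} [Fintype V]

theorem WW_succ (t r : ℕ) :
    (2 * (t : ℝ)) ^ (2 * (r + 1)) * gam ^ (r.choose 2) * gam ^ r = WW t (r + 1) := by
  unfold WW
  rw [Nat.choose_succ_succ' r 1, Nat.choose_one_right, pow_add gam]
  ring

theorem core {ε M ω : ℝ} (he : 0 < ε) (he1 : ε ≤ 1) (hM : 16 * (ε ^ 4)⁻¹ ^ 2 ≤ M) {n0 t : ℕ}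
    (hn : 2 * ω * n0 ≤ 1) {P Q : Finset V → Prop}
    (hP : ∀ U : Finset V, n0 ≤ U.card → ∃ K ⊆ U, K.card = t ∧ P K)
    (hQ : ∀ U : Finset V, n0 ≤ U.card → ∃ K ⊆ U, K.card = t ∧ Q K)
    (κ : V → V → ℝ) (hκ : ∀ x, U01 (κ x)) (R : Finset ℕ) :
    ∀ μ : ℕ → V → ℝ, (∀ c ∈ R, Prob (μ c)) → (∀ c ∈ R, ∀ x, M ^ R.card * μ c x ≤ ω) →
    ∀ (ι : Type) (S : Finset ι) (A : ι → Finset ℕ) (e f : ι → V → ℝ), (∀ i ∈ S, A i ⊆ R) →
      (∀ i ∈ S, U01 (e i)) → (∀ i ∈ S, U01 (f i)) →
      ∑ i ∈ S, WW t (A i).card * (rt (∏ c ∈ A i, Ex (μ c) (e i)) * rt (∏ c ∈ A i, Ex (μ c) (f i))) +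
        (R.card : ℝ) ^ 2 * ((∑ i ∈ S, (2 * (t : ℝ)) ^ (2 * (A i).card)) * ε) < 1 →
      ∃ K J : ℕ → Finset V,
        (∀ c ∈ R, ((K c).card = t ∧ P (K c) ∧ ∀ x ∈ K c, μ c x ≠ 0) ∧
          ((J c).card = t ∧ Q (J c) ∧ ∀ x ∈ J c, μ c x ≠ 0)) ∧
        ∀ i ∈ S, ∀ x z : ℕ → V,
          (∀ c ∈ A i, x c ∈ K c ∧ z c ∈ J c ∧ e i (x c) = 1 ∧ f i (z c) = 1) →
          (∀ c ∈ A i, ∀ c' ∈ A i, c ≠ c' → κ (x c) (x c') = 1 ∧ κ (z c) (z c') = 0) → False := by
  classical
  have hT : 1 ≤ (ε ^ 4)⁻¹ := one_le_inv_iff₀.mpr ⟨by positivity, pow_le_one₀ he.le he1⟩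
  have hM1 : 1 ≤ M := by nlinarith
  have hκ' : ∀ x, U01 (fun y => 1 - κ x y) := fun x y =>
    ⟨by linarith [(hκ x y).2], by linarith [(hκ x y).1]⟩
  induction R using Finset.induction_on with
  | empty =>
    intro μ _ _ ι S A e f hA _ _ hΦ
    refine ⟨fun _ => ∅, fun _ => ∅, by simp, fun i hi _ _ _ _ => ?_⟩
    have h1 := single_le_sum (f := fun i => WW t (A i).card *
      (rt (∏ c ∈ A i, Ex (μ c) (e i)) * rt (∏ c ∈ A i, Ex (μ c) (f i))))
      (fun i _ => mul_nonneg (WW_nonneg _ _) (mul_nonneg (rt_nonneg _) (rt_nonneg _))) hi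
    have h2 : A i = ∅ := subset_empty.mp (hA i hi)
    have h3 : WW t 0 = 1 := by simp [WW]
    simp only [h2, card_empty, prod_empty, rt_one, h3] at h1
    simp only [card_empty] at hΦ
    norm_num at h1 hΦ
    linarith
  | insert b R hb ih =>
    intro μ hμ hω ι S A e f hA hE hF hΦ
    rw [card_insert_of_notMem hb] at hω hΦ
    have hμb := hμ b (mem_insert_self _ _)
    have hμR : ∀ c ∈ R, Prob (μ c) := fun c hc => hμ c (mem_insert_of_mem hc)
    have hA' : ∀ i ∈ S, (A i).erase b ⊆ R := fun i hi => subset_insert_iff.mp (hA i hi)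
    set w : ι → ℝ := fun i => (2 * (t : ℝ)) ^ (2 * (A i).card) *
      gam ^ (((A i).erase b).card.choose 2) with hw
    have hw0 : ∀ i, 0 ≤ w i := fun i => mul_nonneg (by positivity) (pow_nonneg gam_pos.le _)
    set L : ι → Finset ℕ := fun i => if b ∈ A i then (A i).erase b else ∅ with hL
    have hLA : ∀ i ∈ S, L i ⊆ (A i).erase b := fun i _ => by
      simp only [hL]; split_ifs
      · exact Subset.rfl
      · exact empty_subset _
    obtain ⟨νb, ν, h1, h2, h3, h4, -, h6⟩ := inner_loop hμb hμR he he1 hM S w (fun i _ => hw0 i)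
      (fun i => (A i).erase b) L hA' hLA (fun i => tfun (e i) (A i) b) e
      (fun i => tfun (f i) (A i) b) f (fun i hi => tfun_U01 _ _ (hE i hi)) hE
      (fun i hi => tfun_U01 _ _ (hF i hi)) hF κ hκ R Subset.rfl
    have cardA : ∀ i, b ∈ A i → (A i).card = ((A i).erase b).card + 1 := fun i h =>
      (card_erase_add_one h).symm
    have e1 : ∑ i ∈ S, w i * gam ^ (L i).card *
        (rt (NN (μ b) μ (tfun (e i) (A i) b) (e i) ((A i).erase b) (L i) ∅ κ) *
        rt (NN (μ b) μ (tfun (f i) (A i) b) (f i) ((A i).erase b) (L i) ∅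
          (fun x y => 1 - κ x y))) = ∑ i ∈ S, WW t (A i).card *
        (rt (∏ c ∈ A i, Ex (μ c) (e i)) * rt (∏ c ∈ A i, Ex (μ c) (f i))) := by
      refine sum_congr rfl fun i _ => ?_
      rw [NN_empty _ _ _ _ _ hμb, NN_empty _ _ _ _ _ hμb]
      congr 1
      by_cases h : b ∈ A i
      · simp only [hw, hL, if_pos h]
        rw [cardA i h, WW_succ]
      · simp only [hw, hL, if_neg h, erase_eq_of_notMem h, card_empty, pow_zero, mul_one, WW]
    rw [e1] at h6
    set a : ι → V → ℝ := fun i x => e i x *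
      ∏ c ∈ (A i).erase b, Ex (ν c) (fun y => e i y * κ x y) with ha
    set a' : ι → V → ℝ := fun i x => f i x *
      ∏ c ∈ (A i).erase b, Ex (ν c) (fun y => f i y * (1 - κ x y)) with ha'
    have e2 : ∑ i ∈ S, w i * gam ^ (L i \ R).card *
        (rt (NN νb ν (tfun (e i) (A i) b) (e i) ((A i).erase b) (L i) R κ) *
        rt (NN νb ν (tfun (f i) (A i) b) (f i) ((A i).erase b) (L i) R
          (fun x y => 1 - κ x y))) =
        ∑ i ∈ S.filter (fun i => b ∈ A i), w i * (rt (Ex νb (a i)) * rt (Ex νb (a' i))) +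
        ∑ i ∈ S.filter (fun i => ¬b ∈ A i), WW t (A i).card *
          (rt (∏ c ∈ A i, Ex (ν c) (e i)) * rt (∏ c ∈ A i, Ex (ν c) (f i))) := by
      rw [← sum_filter_add_sum_filter_not S (fun i => b ∈ A i)]
      congr 1
      · refine sum_congr rfl fun i hi => ?_
        obtain ⟨hi, h⟩ := mem_filter.mp hi
        rw [sdiff_eq_empty_iff_subset.mpr ((hLA i hi).trans (hA' i hi))]
        simp only [hL, if_pos h, card_empty, pow_zero, mul_one]
        rw [NN_in _ _ _ _ _ _ h (hA' i hi), NN_in _ _ _ _ _ _ h (hA' i hi)]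
      · refine sum_congr rfl fun i hi => ?_
        obtain ⟨hi, h⟩ := mem_filter.mp hi
        simp only [hL, if_neg h, empty_sdiff, card_empty, pow_zero, mul_one]
        rw [NN_out _ _ _ _ _ _ h1 h, NN_out _ _ _ _ _ _ h1 h]
        simp only [hw, erase_eq_of_notMem h, WW]
    rw [e2] at h6
    have hωb : ∀ x, νb x ≤ ω := fun x => by
      refine (h3 x).trans (le_trans ?_ (hω b (mem_insert_self _ _) x))
      exact mul_le_mul_of_nonneg_right (pow_le_pow_right₀ hM1 (Nat.le_succ _)) (hμb.nonneg x)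
    have pr0 : ∀ i ∈ S, ∀ (g : V → ℝ), (∀ y, 0 ≤ g y) →
        0 ≤ ∏ c ∈ (A i).erase b, Ex (ν c) g := fun i hi g hg =>
      prod_nonneg fun c hc => Ex_nonneg (h2 c (hA' i hi hc)).nonneg hg
    obtain ⟨K0, J0, hK0, hJ0, h7⟩ := sample2 h1 hωb hn hP hQ (S.filter (fun i => b ∈ A i))
      (fun i => WW t ((A i).erase b).card) (fun i _ => WW_nonneg _ _) a a'
      (fun i hi x => mul_nonneg (hE i (mem_filter.mp hi).1 x).1 (pr0 i (mem_filter.mp hi).1 _
        fun y => mul_nonneg (hE i (mem_filter.mp hi).1 y).1 (hκ x y).1))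
      (fun i hi x => mul_nonneg (hF i (mem_filter.mp hi).1 x).1 (pr0 i (mem_filter.mp hi).1 _
        fun y => mul_nonneg (hF i (mem_filter.mp hi).1 y).1 (hκ' x y).1))
    have e3 : (2 * (t : ℝ)) ^ 2 * ∑ i ∈ S.filter (fun i => b ∈ A i),
        WW t ((A i).erase b).card * (rt (Ex νb (a i)) * rt (Ex νb (a' i))) =
        ∑ i ∈ S.filter (fun i => b ∈ A i), w i * (rt (Ex νb (a i)) * rt (Ex νb (a' i))) := by
      rw [mul_sum]
      refine sum_congr rfl fun i hi => ?_
      simp only [hw, WW]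
      rw [cardA i (mem_filter.mp hi).2]
      ring
    rw [e3] at h7
    let S2 : Finset (ι × V × V) := ((S.filter (fun i => b ∈ A i)) ×ˢ K0 ×ˢ J0).filter
      (fun p => e p.1 p.2.1 = 1 ∧ f p.1 p.2.2 = 1)
    have hS2 : ∀ p ∈ S2, p.1 ∈ S := fun p hp =>
      (mem_filter.mp (mem_product.mp (mem_filter.mp hp).1).1).1
    have hmass : ∑ i ∈ S.filter (fun i => ¬b ∈ A i), (2 * (t : ℝ)) ^ (2 * (A i).card) +
        ∑ p ∈ S2, (2 * (t : ℝ)) ^ (2 * ((A p.1).erase b).card) ≤
        ∑ i ∈ S, (2 * (t : ℝ)) ^ (2 * (A i).card) := by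
      rw [← sum_filter_add_sum_filter_not S (fun i => b ∈ A i), add_comm]
      refine add_le_add_left ?_ _
      refine (sum_le_sum_of_subset_of_nonneg (filter_subset _ _) fun _ _ _ => by positivity).trans ?_
      rw [sum_product]
      refine sum_le_sum fun i hi => ?_
      simp only [sum_const, card_product, hK0.1, hJ0.1, nsmul_eq_mul]
      rw [cardA i (mem_filter.mp hi).2, mul_add, pow_add, mul_comm]
      refine mul_le_mul_of_nonneg_left ?_ (by positivity)
      push_cast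
      nlinarith [mul_self_nonneg (t : ℝ)]
    have hnew : ∑ p ∈ S2, WW t ((A p.1).erase b).card *
        (rt (∏ c ∈ (A p.1).erase b, Ex (ν c) (fun y => e p.1 y * κ p.2.1 y)) *
        rt (∏ c ∈ (A p.1).erase b, Ex (ν c) (fun y => f p.1 y * (1 - κ p.2.2 y)))) ≤
        ∑ i ∈ S.filter (fun i => b ∈ A i), WW t ((A i).erase b).card *
          ((∑ x ∈ K0, rt (a i x)) * ∑ z ∈ J0, rt (a' i z)) := by
      have : ∑ p ∈ S2, WW t ((A p.1).erase b).card *
          (rt (∏ c ∈ (A p.1).erase b, Ex (ν c) (fun y => e p.1 y * κ p.2.1 y)) *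
          rt (∏ c ∈ (A p.1).erase b, Ex (ν c) (fun y => f p.1 y * (1 - κ p.2.2 y)))) =
          ∑ p ∈ S2, WW t ((A p.1).erase b).card * (rt (a p.1 p.2.1) * rt (a' p.1 p.2.2)) := by
        refine sum_congr rfl fun p hp => ?_
        obtain ⟨q1, q2⟩ := (mem_filter.mp hp).2
        simp only [ha, ha', q1, q2, one_mul]
      rw [this]
      refine (sum_le_sum_of_subset_of_nonneg (filter_subset _ _) fun _ _ _ =>
        mul_nonneg (WW_nonneg _ _) (mul_nonneg (rt_nonneg _) (rt_nonneg _))).trans (le_of_eq ?_)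
      rw [sum_product]
      refine sum_congr rfl fun i _ => ?_
      rw [sum_mul_sum, sum_product, mul_sum]
      refine sum_congr rfl fun x _ => ?_
      rw [mul_sum]
    have hwm : ∑ i ∈ S, w i ≤ ∑ i ∈ S, (2 * (t : ℝ)) ^ (2 * (A i).card) :=
      sum_le_sum fun i _ =>
        mul_le_of_le_one_right (by positivity) (pow_le_one₀ gam_pos.le gam_le)
    obtain ⟨K, J, hKJ, hno⟩ := ih ν h2
      (fun c hc x => by
        refine le_trans ?_ (hω c (mem_insert_of_mem hc) x)
        rw [pow_succ, mul_assoc]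
        exact mul_le_mul_of_nonneg_left (h4 c hc x) (by positivity))
      (ι ⊕ (ι × V × V)) ((S.filter (fun i => ¬b ∈ A i)).disjSum S2)
      (Sum.elim A fun p => (A p.1).erase b) (Sum.elim e fun p y => e p.1 y * κ p.2.1 y)
      (Sum.elim f fun p y => f p.1 y * (1 - κ p.2.2 y))
      (by
        rintro (i | p) hi
        · obtain ⟨hi, h⟩ := mem_filter.mp (inl_mem_disjSum.mp hi)
          have := hA' i hi
          rwa [erase_eq_of_notMem h] at this
        · exact hA' _ (hS2 p (inr_mem_disjSum.mp hi)))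
      (by
        rintro (i | p) hi
        · exact hE i (mem_filter.mp (inl_mem_disjSum.mp hi)).1
        · have := hE _ (hS2 p (inr_mem_disjSum.mp hi))
          exact fun y => ⟨mul_nonneg (this y).1 (hκ _ y).1,
            mul_le_one₀ (this y).2 (hκ _ y).1 (hκ _ y).2⟩)
      (by
        rintro (i | p) hi
        · exact hF i (mem_filter.mp (inl_mem_disjSum.mp hi)).1
        · have := hF _ (hS2 p (inr_mem_disjSum.mp hi))
          exact fun y => ⟨mul_nonneg (this y).1 (hκ' _ y).1,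
            mul_le_one₀ (this y).2 (hκ' _ y).1 (hκ' _ y).2⟩)
      (by
        rw [sum_disjSum, sum_disjSum]
        simp only [Sum.elim_inl, Sum.elim_inr]
        have m0 : 0 ≤ (∑ i ∈ S, (2 * (t : ℝ)) ^ (2 * (A i).card)) * ε :=
          mul_nonneg (sum_nonneg fun _ _ => by positivity) he.le
        have m1 := mul_le_mul_of_nonneg_left (mul_le_mul_of_nonneg_right hmass he.le)
          (sq_nonneg (R.card : ℝ))
        have m2 := mul_le_mul_of_nonneg_left (mul_le_mul_of_nonneg_right hwm he.le)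
          (Nat.cast_nonneg (α := ℝ) R.card)
        have m3 := mul_nonneg (Nat.cast_nonneg (α := ℝ) R.card) m0
        push_cast at hΦ
        nlinarith)
    have supp : ∀ {m m' : V → ℝ} {C : ℝ}, Prob m → (∀ x, m x ≤ C * m' x) → ∀ x, m x ≠ 0 →
        m' x ≠ 0 := by
      intro m m' C hm hle x hx h0
      have := hle x
      rw [h0, mul_zero] at this
      exact hx (le_antisymm this (hm.nonneg x))
    refine ⟨Function.update K b K0, Function.update J b J0, fun c hc => ?_,
      fun i hi x z hx hxz => ?_⟩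
    · rcases mem_insert.mp hc with rfl | hc
      · simp only [Function.update_self]
        exact ⟨⟨hK0.1, hK0.2.1, fun x hx => supp h1 h3 x (hK0.2.2 x hx)⟩,
          ⟨hJ0.1, hJ0.2.1, fun x hx => supp h1 h3 x (hJ0.2.2 x hx)⟩⟩
      · have hne : c ≠ b := fun h => hb (h ▸ hc)
        simp only [Function.update_of_ne hne]
        obtain ⟨q1, q2⟩ := hKJ c hc
        exact ⟨⟨q1.1, q1.2.1, fun x hx => supp (h2 c hc) (h4 c hc) x (q1.2.2 x hx)⟩,
          ⟨q2.1, q2.2.1, fun x hx => supp (h2 c hc) (h4 c hc) x (q2.2.2 x hx)⟩⟩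
    · by_cases h : b ∈ A i
      · have hb' := hx b h
        simp only [Function.update_self] at hb'
        refine hno (Sum.inr (i, x b, z b)) (inr_mem_disjSum.mpr (mem_filter.mpr
          ⟨mem_product.mpr ⟨mem_filter.mpr ⟨hi, h⟩, mem_product.mpr ⟨hb'.1, hb'.2.1⟩⟩,
            hb'.2.2⟩)) x z (fun c hc => ?_) (fun c hc c' hc' =>
              hxz c (mem_of_mem_erase hc) c' (mem_of_mem_erase hc'))
        have hne := ne_of_mem_erase hc
        have q := hx c (mem_of_mem_erase hc)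
        have q' := hxz b h c (mem_of_mem_erase hc) hne.symm
        simp only [Function.update_of_ne hne] at q
        simp only [Sum.elim_inr, q, q', and_self, mul_one, sub_zero]
      · refine hno (Sum.inl i) (inl_mem_disjSum.mpr (mem_filter.mpr ⟨hi, h⟩)) x z
          (fun c hc => ?_) hxz
        have hne : c ≠ b := fun h' => h (h' ▸ hc)
        have q := hx c hc
        simp only [Function.update_of_ne hne] at q
        exact q

end Pool.Agent.P.MP_00ec07_co
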