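import Pool.Agent.P.MP_00ec07_co.Ctx

/-!
Revealing one bit gains a constant when a mixture of densities is far from uniform.
-/

set_option autoImplicit false

namespace Pool.Agent.P.MP_00ec07_co

open Finset

variable {V : Type} [Fintype V]

theorem sqrt_mul_le_theta {a b : ℝ} (ha : 0 ≤ a) (hb : 0 ≤ b) :
    √(a * b) ≤ (32 / 33 * a + 33 / 32 * b) / 2 := by
  have := sqrt_mul_le_half (a := 32 / 33 * a) (b := 33 / 32 * b) (by positivity) (by positivity)
  rwa [show 32 / 33 * a * (33 / 32 * b) = a * b by ring] at this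

theorem reveal {μ μ' : V → ℝ} (hμ : Prob μ) (hμ' : Prob μ') {T M : ℝ} (hT : 1 ≤ T)
    (hM : 16 * T ≤ M) {ι : Type} {S : Finset ι} {π : ι → ℝ} (hπ : ∀ i ∈ S, 0 ≤ π i)
    (hπ1 : ∑ i ∈ S, π i = 1) {d u : ι → V → ℝ} (hd : Dens μ T S d) (hu : Dens μ' T S u)
    (hfar : Ex μ (fun x => min 1 (mix S π d x)) < 15 / 16) :
    ∃ (ρ : Type) (F : Finset ρ) (ν ν' : ρ → V → ℝ) (lam : ρ → ℝ), Ctx μ μ' M F ν ν' lam ∧
      ∑ i ∈ S, π i * val0 F ν ν' (d i) (u i) ≤ 1 - 1 / 2500 := by
  classical
  set p := mix S π d with hp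
  have hp0 : ∀ x, 0 ≤ p x := mix_nonneg hπ hd.nn
  have hpT : ∀ x, p x ≤ T := mix_le hπ hπ1 hd.le
  have hp1 : Ex μ p = 1 := Ex_mix_one hπ1 hd
  let χ : V → ℝ := fun x => if 1 < p x then 1 else 0
  have hχ0 : ∀ x, 0 ≤ χ x := fun x => by simp only [χ]; split_ifs <;> norm_num
  have hχ1 : ∀ x, χ x ≤ 1 := fun x => by simp only [χ]; split_ifs <;> norm_num
  set l : ℝ := Ex μ χ with hl
  set β : ℝ := Ex μ (fun x => χ x * p x) with hβ
  have hl0 : 0 ≤ l := Ex_nonneg hμ.nonneg hχ0
  have hl1 : l ≤ 1 := Ex_le_one hμ hχ1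
  have hβl : β - l = 1 - Ex μ (fun x => min 1 (p x)) := by
    suffices h : β - l = Ex μ p - Ex μ (fun x => min 1 (p x)) by rwa [hp1] at h
    rw [hβ, hl]
    unfold Ex
    rw [← sum_sub_distrib, ← sum_sub_distrib]
    refine sum_congr rfl fun x _ => ?_
    simp only [χ]
    split_ifs with h
    · rw [min_eq_left h.le]; ring
    · rw [min_eq_right (not_lt.mp h)]; ring
  have hβT : β ≤ T * l := by
    rw [hβ, hl]
    unfold Ex
    rw [mul_sum]
    refine sum_le_sum fun x _ => ?_
    have := mul_le_mul_of_nonneg_left (hpT x) (mul_nonneg (hμ.nonneg x) (hχ0 x))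
    nlinarith
  have hlle : l ≤ Ex μ (fun x => min 1 (p x)) := by
    refine Ex_mono hμ.nonneg fun x => ?_
    simp only [χ]
    split_ifs with h
    · rw [min_eq_left h.le]
    · exact le_min zero_le_one (hp0 x)
  have hMl : 1 ≤ M * l := by nlinarith
  have hMl' : 1 ≤ M * (1 - l) := by nlinarith
  have hM1 : 1 ≤ M := by linarith
  let ν : Bool → V → ℝ := fun b x => if b then μ x * χ x else μ x * (1 - χ x)
  let lam : Bool → ℝ := fun b => if b then l else 1 - l
  let ν' : Bool → V → ℝ := fun b x => lam b * μ' x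
  have hlam : ∀ b, 0 ≤ lam b := fun b => by cases b <;> simp [lam] <;> linarith
  have hMlam : ∀ b, 1 ≤ M * lam b := fun b => by cases b <;> simp [lam] <;> linarith
  have hνle : ∀ b x, ν b x ≤ μ x := fun b x => by
    have := hμ.nonneg x; have := hχ0 x; have := hχ1 x
    cases b <;> simp [ν] <;> nlinarith
  have hctx : Ctx μ μ' M univ ν ν' lam := by
    refine ⟨fun b _ x => ?_, fun b _ x => mul_nonneg (hlam b) (hμ'.nonneg x), fun x => ?_,
      fun x => ?_, fun b _ => ?_, fun b _ => ?_, fun b _ x => ?_, fun b _ x => ?_⟩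
    · have := hμ.nonneg x; have := hχ0 x; have := hχ1 x
      cases b <;> simp [ν] <;> nlinarith
    · simp [ν]; ring
    · simp [ν', lam]; ring
    · cases b
      · simp only [ν, lam, Bool.false_eq_true, if_false, mul_sub, mul_one, sum_sub_distrib,
          hμ.total]
        rfl
      · simp only [ν, lam, if_true]; rfl
    · simp only [ν', ← mul_sum, hμ'.total, mul_one]
    · have := mul_le_mul_of_nonneg_right (hMlam b) (hμ.nonneg x)
      have := hνle b x
      linarith
    · have := mul_le_mul_of_nonneg_right hM1 (mul_nonneg (hlam b) (hμ'.nonneg x))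
      simp only [ν']
      nlinarith
  refine ⟨Bool, univ, ν, ν', lam, hctx, ?_⟩
  have hitem : ∀ i ∈ S, val0 univ ν ν' (d i) (u i) ≤
      1 + l / 64 - Ex μ (fun x => χ x * d i x) / 66 := by
    intro i hi
    have e1 : Ex (ν true) (d i) = Ex μ (fun x => χ x * d i x) := by
      unfold Ex; exact sum_congr rfl fun x _ => by simp only [ν, if_true]; ring
    have e2 : Ex (ν false) (d i) = 1 - Ex μ (fun x => χ x * d i x) := by
      rw [← hd.one i hi]
      unfold Ex
      rw [← sum_sub_distrib]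
      exact sum_congr rfl fun x _ => by simp only [ν, Bool.false_eq_true, if_false]; ring
    have e3 : ∀ b, Ex (ν' b) (u i) = lam b := fun b => by
      have := hu.one i hi
      unfold Ex at this ⊢
      simp only [ν', mul_assoc, ← mul_sum, this, mul_one]
    have n1 := Ex_nonneg (hctx.nn true (mem_univ _)) (hd.nn i hi)
    have n2 := Ex_nonneg (hctx.nn false (mem_univ _)) (hd.nn i hi)
    unfold val0
    rw [Fintype.sum_bool, e3, e3]
    have b1 := sqrt_mul_le_theta n1 (hlam true)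
    have b2 := sqrt_mul_le_half n2 (hlam false)
    rw [e1] at b1 ⊢
    rw [e2] at b2 ⊢
    simp only [lam, if_true, Bool.false_eq_true, if_false] at b1 b2 ⊢
    linarith
  have hsum : ∑ i ∈ S, π i * val0 univ ν ν' (d i) (u i) ≤
      ∑ i ∈ S, π i * (1 + l / 64 - Ex μ (fun x => χ x * d i x) / 66) :=
    sum_le_sum fun i hi => mul_le_mul_of_nonneg_left (hitem i hi) (hπ i hi)
  have hβ' : β = ∑ i ∈ S, π i * Ex μ (fun x => χ x * d i x) := Ex_mix S π d μ χ
  have e : ∑ i ∈ S, π i * (1 + l / 64 - Ex μ (fun x => χ x * d i x) / 66) =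
      1 + l / 64 - β / 66 := by
    rw [hβ', sum_div]
    simp only [mul_sub]
    rw [sum_sub_distrib, ← sum_mul, hπ1]
    congr 1
    · ring
    · exact sum_congr rfl fun i _ => by ring
  rw [e] at hsum
  linarith

end Pool.Agent.P.MP_00ec07_co
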