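import Pool.Agent.P.MP_00ec07_co.Kernel
import Pool.Agent.P.MP_00ec07_co.Reveal

/-!
The pair lemma and the pair step.
-/

set_option autoImplicit false

namespace Pool.Agent.P.MP_00ec07_co

open Finset

variable {V : Type} [Fintype V]

theorem val_le_one {μ μ' : V → ℝ} {M : ℝ} {ρ : Type} {F : Finset ρ} {ν ν' : ρ → V → ℝ}
    {lam : ρ → ℝ} (h : Ctx μ μ' M F ν ν' lam) {f g : V → ℝ} {κ : V → V → ℝ}
    (hf : ∀ x, 0 ≤ f x) (hg : ∀ x, 0 ≤ g x) (hκ : ∀ x y, κ x y ≤ 1) (hf1 : Ex μ f = 1)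
    (hg1 : Ex μ' g = 1) : val F ν ν' f g κ ≤ 1 := by
  have := (val_le_val0 h hf hg hκ).trans (val0_le h hf hg)
  rwa [hf1, hg1, one_mul, Real.sqrt_one] at this

theorem one_side {μ μ' : V → ℝ} {T M : ℝ} {ι : Type} {S : Finset ι} {π : ι → ℝ}
    (hπ : ∀ i ∈ S, 0 ≤ π i) (hπ1 : ∑ i ∈ S, π i = 1) {d u d' u' : ι → V → ℝ}
    (hd : Dens μ T S d) (hu : Dens μ' T S u) (hd' : Dens μ T S d') (hu' : Dens μ' T S u')
    {κ κ' : V → V → ℝ} (hκ : ∀ x y, κ x y ≤ 1) (hκ' : ∀ x y, κ' x y ≤ 1) {ρ : Type}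
    {F : Finset ρ} {ν ν' : ρ → V → ℝ} {lam : ρ → ℝ} (h : Ctx μ μ' M F ν ν' lam)
    (hv : ∑ i ∈ S, π i * val0 F ν ν' (d i) (u i) ≤ 1 - 1 / 2500) :
    ∑ i ∈ S, π i * val F ν ν' (d i) (u i) κ + ∑ i ∈ S, π i * val F ν ν' (d' i) (u' i) κ' ≤
      2 - 1 / 2500 := by
  have h1 : ∑ i ∈ S, π i * val F ν ν' (d i) (u i) κ ≤ ∑ i ∈ S, π i * val0 F ν ν' (d i) (u i) :=
    sum_le_sum fun i hi => mul_le_mul_of_nonneg_left
      (val_le_val0 h (hd.nn i hi) (hu.nn i hi) hκ) (hπ i hi)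
  have h2 : ∑ i ∈ S, π i * val F ν ν' (d' i) (u' i) κ' ≤ ∑ i ∈ S, π i :=
    sum_le_sum fun i hi => mul_le_of_le_one_right (hπ i hi)
      (val_le_one h (hd'.nn i hi) (hu'.nn i hi) hκ' (hd'.one i hi) (hu'.one i hi))
  linarith

theorem pair_lemma {μ μ' : V → ℝ} (hμ : Prob μ) (hμ' : Prob μ') {T M : ℝ} (hT : 1 ≤ T)
    (hM : 16 * T ^ 2 ≤ M) {ι : Type} {S : Finset ι} {π : ι → ℝ} (hπ : ∀ i ∈ S, 0 ≤ π i)
    (hπ1 : ∑ i ∈ S, π i = 1) {d u d' u' : ι → V → ℝ} (hd : Dens μ T S d) (hu : Dens μ' T S u)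
    (hd' : Dens μ T S d') (hu' : Dens μ' T S u') {κ : V → V → ℝ} (hκ0 : ∀ x y, 0 ≤ κ x y)
    (hκ1 : ∀ x y, κ x y ≤ 1) :
    ∃ (ρ : Type) (F : Finset ρ) (ν ν' : ρ → V → ℝ) (lam : ρ → ℝ), Ctx μ μ' M F ν ν' lam ∧
      ∑ i ∈ S, π i * (val F ν ν' (d i) (u i) κ +
        val F ν ν' (d' i) (u' i) (fun x y => 1 - κ x y)) ≤ 2 - 1 / 2500 := by
  have hM1 : 16 * T ≤ M := by nlinarith
  have hκ2 : ∀ x y, 1 - κ x y ≤ 1 := fun x y => by linarith [hκ0 x y]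
  simp only [mul_add, sum_add_distrib]
  by_cases c1 : Ex μ (fun x => min 1 (mix S π d x)) < 15 / 16
  · obtain ⟨ρ, F, ν, ν', lam, h, hv⟩ := reveal hμ hμ' hT hM1 hπ hπ1 hd hu c1
    exact ⟨ρ, F, ν, ν', lam, h, one_side hπ hπ1 hd hu hd' hu' hκ1 hκ2 h hv⟩
  by_cases c2 : Ex μ (fun x => min 1 (mix S π d' x)) < 15 / 16
  · obtain ⟨ρ, F, ν, ν', lam, h, hv⟩ := reveal hμ hμ' hT hM1 hπ hπ1 hd' hu' c2
    exact ⟨ρ, F, ν, ν', lam, h,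
      (add_comm _ _).le.trans (one_side hπ hπ1 hd' hu' hd hu hκ2 hκ1 h hv)⟩
  by_cases c3 : Ex μ' (fun x => min 1 (mix S π u x)) < 15 / 16
  · obtain ⟨ρ, F, ν, ν', lam, h, hv⟩ := reveal hμ' hμ hT hM1 hπ hπ1 hu hd c3
    simp only [val0_swap F ν ν'] at hv
    exact ⟨ρ, F, ν', ν, lam, h.swap, one_side hπ hπ1 hd hu hd' hu' hκ1 hκ2 h.swap hv⟩
  by_cases c4 : Ex μ' (fun x => min 1 (mix S π u' x)) < 15 / 16
  · obtain ⟨ρ, F, ν, ν', lam, h, hv⟩ := reveal hμ' hμ hT hM1 hπ hπ1 hu' hd' c4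
    simp only [val0_swap F ν ν'] at hv
    exact ⟨ρ, F, ν', ν, lam, h.swap,
      (add_comm _ _).le.trans (one_side hπ hπ1 hd' hu' hd hu hκ2 hκ1 h.swap hv)⟩
  obtain ⟨η, hη⟩ := exists_damp hμ hT (mix_nonneg hπ hd.nn) (mix_nonneg hπ hd'.nn)
    (mix_le hπ hπ1 hd.le) (mix_le hπ hπ1 hd'.le) (Ex_mix_one hπ1 hd) (Ex_mix_one hπ1 hd')
    (not_lt.mp c1) (not_lt.mp c2)
  obtain ⟨η', hη'⟩ := exists_damp hμ' hT (mix_nonneg hπ hu.nn) (mix_nonneg hπ hu'.nn)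
    (mix_le hπ hπ1 hu.le) (mix_le hπ hπ1 hu'.le) (Ex_mix_one hπ1 hu) (Ex_mix_one hπ1 hu')
    (not_lt.mp c3) (not_lt.mp c4)
  obtain ⟨ρ, F, ν, ν', lam, h, hv⟩ := kernel hμ hμ' hT (M := M) (by nlinarith) (by nlinarith)
    hπ hπ1 hd hu hd' hu' hκ0 hκ1 hη hη'
  simp only [mul_add, sum_add_distrib] at hv
  exact ⟨ρ, F, ν, ν', lam, h, by linarith⟩

/-- The fourth root. -/
noncomputable def rt (a : ℝ) : ℝ := √(√a)

theorem rt_nonneg (a : ℝ) : 0 ≤ rt a := Real.sqrt_nonneg _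

theorem rt_mul_rt (a b : ℝ) : rt a * rt b = √(√a * √b) :=
  (Real.sqrt_mul (Real.sqrt_nonneg a) _).symm

theorem rt_mono {a b : ℝ} (h : a ≤ b) : rt a ≤ rt b := Real.sqrt_le_sqrt (Real.sqrt_le_sqrt h)

theorem rt_one : rt 1 = 1 := by simp [rt]

theorem rt_pow {e : ℝ} (he : 0 ≤ e) : rt (e ^ 4) = e := by
  unfold rt
  rw [show e ^ 4 = (e ^ 2) ^ 2 by ring, Real.sqrt_sq (by positivity), Real.sqrt_sq he]

/-- The gain factor of one pair step. -/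
noncomputable def gam : ℝ := 4999 / 5000

theorem Bi_scale (μ μ' f g : V → ℝ) (κ : V → V → ℝ) {a b : ℝ} (ha : 0 < a) (hb : 0 < b) :
    Bi μ μ' f g κ = a * b * Bi μ μ' (fun x => f x / a) (fun x => g x / b) κ := by
  unfold Bi
  rw [mul_sum]
  refine sum_congr rfl fun x _ => ?_
  rw [mul_sum]
  refine sum_congr rfl fun y _ => ?_
  field_simp

theorem val_scale {ρ : Type} (F : Finset ρ) (ν ν' : ρ → V → ℝ) (f g : V → ℝ) (κ : V → V → ℝ)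
    {a b : ℝ} (ha : 0 < a) (hb : 0 < b) :
    val F ν ν' f g κ = √(a * b) * val F ν ν' (fun x => f x / a) (fun x => g x / b) κ := by
  unfold val
  rw [mul_sum]
  refine sum_congr rfl fun i _ => ?_
  rw [Bi_scale _ _ f g κ ha hb, Real.sqrt_mul (by positivity)]

theorem val_nonneg {ρ : Type} (F : Finset ρ) (ν ν' : ρ → V → ℝ) (f g : V → ℝ) (κ : V → V → ℝ) :
    0 ≤ val F ν ν' f g κ := sum_nonneg fun _ _ => Real.sqrt_nonneg _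

theorem dens_norm {μ : V → ℝ} {e : ℝ} (he : 0 < e) {ι : Type} {S : Finset ι} {s : ι → V → ℝ}
    (h0 : ∀ i ∈ S, ∀ x, 0 ≤ s i x) (h1 : ∀ i ∈ S, ∀ x, s i x ≤ 1)
    (h : ∀ i ∈ S, e ≤ Ex μ (s i)) : Dens μ e⁻¹ S (fun i x => s i x / Ex μ (s i)) := by
  refine ⟨fun i hi x => div_nonneg (h0 i hi x) (he.le.trans (h i hi)), fun i hi x => ?_,
    fun i hi => ?_⟩
  · rw [← one_div]
    exact div_le_div₀ zero_le_one (h1 i hi x) he (h i hi)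
  · have := Ex_smul μ (s i) (Ex μ (s i))⁻¹
    simp only [inv_mul_eq_div] at this
    rw [this, div_self (he.trans_le (h i hi)).ne']

/-- The joint value of a context on a term. -/
noncomputable def joint {ρ : Type} (F : Finset ρ) (ν ν' : ρ → V → ℝ) (s t s' t' : V → ℝ)
    (k k' : V → V → ℝ) : ℝ :=
  ∑ i ∈ F, rt (Bi (ν i) (ν' i) s t k) * rt (Bi (ν i) (ν' i) s' t' k')

theorem joint_le {ρ : Type} (F : Finset ρ) (ν ν' : ρ → V → ℝ) (s t s' t' : V → ℝ)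
    (k k' : V → V → ℝ) :
    joint F ν ν' s t s' t' k k' ≤ √(val F ν ν' s t k * val F ν ν' s' t' k') := by
  unfold joint val
  simp only [rt_mul_rt]
  exact sum_sqrt_mul_le F _ _ (fun _ _ => Real.sqrt_nonneg _) (fun _ _ => Real.sqrt_nonneg _)

theorem joint_le_old {μ μ' : V → ℝ} {M : ℝ} {ρ : Type} {F : Finset ρ} {ν ν' : ρ → V → ℝ}
    {lam : ρ → ℝ} (h : Ctx μ μ' M F ν ν' lam) {s t s' t' : V → ℝ} {k k' : V → V → ℝ}
    (hs : ∀ x, 0 ≤ s x) (ht : ∀ x, 0 ≤ t x) (hs' : ∀ x, 0 ≤ s' x) (ht' : ∀ x, 0 ≤ t' x)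
    (hk : ∀ x y, k x y ≤ 1) (hk' : ∀ x y, k' x y ≤ 1) :
    joint F ν ν' s t s' t' k k' ≤ rt (Ex μ s * Ex μ' t) * rt (Ex μ s' * Ex μ' t') := by
  refine (joint_le _ _ _ _ _ _ _ _ _).trans ?_
  rw [rt_mul_rt]
  exact Real.sqrt_le_sqrt (mul_le_mul ((val_le_val0 h hs ht hk).trans (val0_le h hs ht))
    ((val_le_val0 h hs' ht' hk').trans (val0_le h hs' ht')) (val_nonneg _ _ _ _ _ _)
    (Real.sqrt_nonneg _))

theorem good_ctx {μ μ' : V → ℝ} (hμ : Prob μ) (hμ' : Prob μ') {e M : ℝ} (he : 0 < e)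
    (he1 : e ≤ 1) (hM : 16 * e⁻¹ ^ 2 ≤ M) {ι : Type} {S : Finset ι} {c : ι → ℝ}
    (hc : ∀ i ∈ S, 0 ≤ c i) {s t s' t' : ι → V → ℝ}
    (hs : ∀ i ∈ S, ∀ x, 0 ≤ s i x) (ht : ∀ i ∈ S, ∀ x, 0 ≤ t i x)
    (hs' : ∀ i ∈ S, ∀ x, 0 ≤ s' i x) (ht' : ∀ i ∈ S, ∀ x, 0 ≤ t' i x)
    (hs1 : ∀ i ∈ S, ∀ x, s i x ≤ 1) (ht1 : ∀ i ∈ S, ∀ x, t i x ≤ 1)
    (hs1' : ∀ i ∈ S, ∀ x, s' i x ≤ 1) (ht1' : ∀ i ∈ S, ∀ x, t' i x ≤ 1)
    (g1 : ∀ i ∈ S, e ≤ Ex μ (s i)) (g2 : ∀ i ∈ S, e ≤ Ex μ' (t i))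
    (g3 : ∀ i ∈ S, e ≤ Ex μ (s' i)) (g4 : ∀ i ∈ S, e ≤ Ex μ' (t' i))
    {κ : V → V → ℝ} (hκ0 : ∀ x y, 0 ≤ κ x y) (hκ1 : ∀ x y, κ x y ≤ 1) :
    ∃ (ρ : Type) (F : Finset ρ) (ν ν' : ρ → V → ℝ) (lam : ρ → ℝ), Ctx μ μ' M F ν ν' lam ∧
      ∑ i ∈ S, c i * joint F ν ν' (s i) (t i) (s' i) (t' i) κ (fun x y => 1 - κ x y) ≤
      gam * ∑ i ∈ S, c i * (rt (Ex μ (s i) * Ex μ' (t i)) * rt (Ex μ (s' i) * Ex μ' (t' i))) := by
  set O : ι → ℝ := fun i => rt (Ex μ (s i) * Ex μ' (t i)) * rt (Ex μ (s' i) * Ex μ' (t' i))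
    with hO
  have hO0 : ∀ i, 0 ≤ O i := fun i => mul_nonneg (rt_nonneg _) (rt_nonneg _)
  set Z := ∑ i ∈ S, c i * O i with hZ
  have hT : 1 ≤ e⁻¹ := one_le_inv_iff₀.mpr ⟨he, he1⟩
  have hκ2 : ∀ x y, 1 - κ x y ≤ 1 := fun x y => by linarith [hκ0 x y]
  have hZ0 : 0 ≤ Z := sum_nonneg fun i hi => mul_nonneg (hc i hi) (hO0 i)
  rcases hZ0.eq_or_lt with hZ0 | hZ0
  · have hM1 : 1 ≤ M := by nlinarith
    have hctx : Ctx μ μ' M (univ : Finset Unit) (fun _ => μ) (fun _ => μ') (fun _ => 1) :=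
      ⟨fun _ _ => hμ.nonneg, fun _ _ => hμ'.nonneg, fun x => by simp, fun x => by simp,
        fun _ _ => hμ.total, fun _ _ => hμ'.total,
        fun _ _ x => by rw [mul_one]; exact le_mul_of_one_le_left (hμ.nonneg x) hM1,
        fun _ _ x => by rw [mul_one]; exact le_mul_of_one_le_left (hμ'.nonneg x) hM1⟩
    refine ⟨Unit, univ, _, _, _, hctx, ?_⟩
    rw [← hZ0, mul_zero, hZ0]
    exact sum_le_sum fun i hi => mul_le_mul_of_nonneg_left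
      (joint_le_old hctx (hs i hi) (ht i hi) (hs' i hi) (ht' i hi) hκ1 hκ2) (hc i hi)
  obtain ⟨ρ, F, ν, ν', lam, h, hv⟩ := pair_lemma hμ hμ' hT hM (S := S)
    (π := fun i => c i * O i / Z)
    (fun i hi => div_nonneg (mul_nonneg (hc i hi) (hO0 i)) hZ0.le)
    (by rw [← sum_div, div_self hZ0.ne']) (dens_norm he hs hs1 g1) (dens_norm he ht ht1 g2)
    (dens_norm he hs' hs1' g3) (dens_norm he ht' ht1' g4) hκ0 hκ1
  refine ⟨ρ, F, ν, ν', lam, h, ?_⟩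
  have hi : ∀ i ∈ S, c i * joint F ν ν' (s i) (t i) (s' i) (t' i) κ (fun x y => 1 - κ x y) ≤
      Z / 2 * (c i * O i / Z *
        (val F ν ν' (fun x => s i x / Ex μ (s i)) (fun x => t i x / Ex μ' (t i)) κ +
          val F ν ν' (fun x => s' i x / Ex μ (s' i)) (fun x => t' i x / Ex μ' (t' i))
            (fun x y => 1 - κ x y))) := by
    intro i hi
    have j1 := joint_le F ν ν' (s i) (t i) (s' i) (t' i) κ (fun x y => 1 - κ x y)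
    rw [val_scale F ν ν' (s i) (t i) κ (he.trans_le (g1 i hi)) (he.trans_le (g2 i hi)),
      val_scale F ν ν' (s' i) (t' i) _ (he.trans_le (g3 i hi)) (he.trans_le (g4 i hi)),
      mul_mul_mul_comm, Real.sqrt_mul (by positivity), ← rt_mul_rt] at j1
    have j2 := mul_le_mul_of_nonneg_left (sqrt_mul_le_half
      (val_nonneg F ν ν' (fun x => s i x / Ex μ (s i)) (fun x => t i x / Ex μ' (t i)) κ)
      (val_nonneg F ν ν' (fun x => s' i x / Ex μ (s' i)) (fun x => t' i x / Ex μ' (t' i))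
        (fun x y => 1 - κ x y))) (hO0 i)
    have j3 := mul_le_mul_of_nonneg_left (j1.trans j2) (hc i hi)
    refine j3.trans (le_of_eq ?_)
    field_simp
  refine (sum_le_sum hi).trans ?_
  rw [← mul_sum]
  have := mul_le_mul_of_nonneg_left hv (by positivity : 0 ≤ Z / 2)
  unfold gam
  linarith

end Pool.Agent.P.MP_00ec07_co
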