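import Pool.Agent.P.MP_00ec07_co.Pair

/-!
One pair step: tilting two weights so that a weighted sum of fourth roots does not grow, with a
gain on the main terms.
-/

set_option autoImplicit false

namespace Pool.Agent.P.MP_00ec07_co

open Finset

variable {V : Type} [Fintype V]

/-- A function with values in the unit interval. -/
def U01 {α : Type} (f : α → ℝ) : Prop := ∀ x, 0 ≤ f x ∧ f x ≤ 1

theorem old_small {a b a' b' e : ℝ} (he : 0 ≤ e) (ha : 0 ≤ a) (hb : 0 ≤ b) (ha' : 0 ≤ a')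
    (hb' : 0 ≤ b') (ha1 : a ≤ 1) (hb1 : b ≤ 1) (ha1' : a' ≤ 1) (hb1' : b' ≤ 1)
    (h : ¬(e ^ 4 ≤ a ∧ e ^ 4 ≤ b ∧ e ^ 4 ≤ a' ∧ e ^ 4 ≤ b')) : rt (a * b) * rt (a' * b') ≤ e := by
  have u1 : rt (a * b) ≤ 1 := rt_one ▸ rt_mono (mul_le_one₀ ha1 hb hb1)
  have u2 : rt (a' * b') ≤ 1 := rt_one ▸ rt_mono (mul_le_one₀ ha1' hb' hb1')
  have v1 : a * b ≤ e ^ 4 → rt (a * b) * rt (a' * b') ≤ e := fun h => by
    have := rt_mono h
    rw [rt_pow he] at this
    exact (mul_le_of_le_one_right (rt_nonneg _) u2).trans this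
  have v2 : a' * b' ≤ e ^ 4 → rt (a * b) * rt (a' * b') ≤ e := fun h => by
    have := rt_mono h
    rw [rt_pow he] at this
    exact (mul_le_of_le_one_left (rt_nonneg _) u1).trans this
  by_cases h1 : e ^ 4 ≤ a
  · by_cases h2 : e ^ 4 ≤ b
    · by_cases h3 : e ^ 4 ≤ a'
      · have h4 : ¬ e ^ 4 ≤ b' := fun h4 => h ⟨h1, h2, h3, h4⟩
        exact v2 ((mul_le_of_le_one_left hb' ha1').trans (not_le.mp h4).le)
      · exact v2 ((mul_le_of_le_one_right ha' hb1').trans (not_le.mp h3).le)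
    · exact v1 ((mul_le_of_le_one_left hb ha1).trans (not_le.mp h2).le)
  · exact v1 ((mul_le_of_le_one_right ha hb1).trans (not_le.mp h1).le)

theorem rt_scale {a b l : ℝ} (hl : 0 < l) :
    rt (a / l ^ 2) * rt (b / l ^ 2) = rt a * rt b / l := by
  rw [rt_mul_rt, rt_mul_rt, Real.sqrt_div' _ (by positivity), Real.sqrt_div' _ (by positivity),
    Real.sqrt_sq hl.le, div_mul_div_comm, Real.sqrt_div' _ (by positivity), Real.sqrt_mul_self hl.le]

theorem Bi_div (μ μ' f g : V → ℝ) (κ : V → V → ℝ) (l : ℝ) :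
    Bi (fun x => μ x / l) (fun x => μ' x / l) f g κ = Bi μ μ' f g κ / l ^ 2 := by
  unfold Bi
  rw [sum_div]
  refine sum_congr rfl fun x _ => ?_
  rw [sum_div]
  refine sum_congr rfl fun y _ => ?_
  ring

theorem exists_le_avg {ρ : Type} (F : Finset ρ) (lam Φ : ρ → ℝ) (B : ℝ)
    (hl : ∀ i ∈ F, 0 ≤ lam i) (hl1 : ∑ i ∈ F, lam i = 1) (hΦ : ∀ i ∈ F, 0 ≤ Φ i)
    (h : ∑ i ∈ F, Φ i ≤ B) : ∃ i ∈ F, 0 < lam i ∧ Φ i ≤ lam i * B := by
  by_contra hcon
  push Not at hcon
  have hex : ∃ i ∈ F, 0 < lam i := by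
    by_contra h0
    push Not at h0
    have := sum_nonpos h0
    linarith
  obtain ⟨j, hj, hj0⟩ := hex
  have : ∑ i ∈ F, lam i * B < ∑ i ∈ F, Φ i := by
    refine sum_lt_sum (fun i hi => ?_) ⟨j, hj, hcon j hj hj0⟩
    rcases (hl i hi).eq_or_lt with h0 | h0
    · rw [← h0, zero_mul]; exact hΦ i hi
    · exact (hcon i hi h0).le
  rw [← sum_mul, hl1, one_mul] at this
  linarith

theorem gam_pos : 0 < gam := by unfold gam; norm_num

theorem gam_le : gam ≤ 1 := by unfold gam; norm_num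

theorem pair_step {μ μ' : V → ℝ} (hμ : Prob μ) (hμ' : Prob μ') {e M : ℝ} (he : 0 < e)
    (he1 : e ≤ 1) (hM : 16 * (e ^ 4)⁻¹ ^ 2 ≤ M) {ι : Type} (S : Finset ι) (c : ι → ℝ)
    (hc : ∀ i ∈ S, 0 ≤ c i) (s t s' t' : ι → V → ℝ) (hs : ∀ i ∈ S, U01 (s i))
    (ht : ∀ i ∈ S, U01 (t i)) (hs' : ∀ i ∈ S, U01 (s' i)) (ht' : ∀ i ∈ S, U01 (t' i))
    (κ : V → V → ℝ) (hκ0 : ∀ x y, 0 ≤ κ x y) (hκ1 : ∀ x y, κ x y ≤ 1) (main : ι → Prop)
    [DecidablePred main] :
    ∃ ν ν' : V → ℝ, Prob ν ∧ Prob ν' ∧ (∀ x, ν x ≤ M * μ x) ∧ (∀ x, ν' x ≤ M * μ' x) ∧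
      ∑ i ∈ S, c i * (rt (Bi ν ν' (s i) (t i) (fun x y => if main i then κ x y else 1)) *
        rt (Bi ν ν' (s' i) (t' i) (fun x y => if main i then 1 - κ x y else 1))) ≤
      ∑ i ∈ S, c i * (if main i then gam else 1) *
        (rt (Ex μ (s i) * Ex μ' (t i)) * rt (Ex μ (s' i) * Ex μ' (t' i))) +
      (∑ i ∈ S, c i) * e := by
  classical
  let good : ι → Prop := fun i => main i ∧ (e ^ 4 ≤ Ex μ (s i) ∧ e ^ 4 ≤ Ex μ' (t i) ∧
    e ^ 4 ≤ Ex μ (s' i) ∧ e ^ 4 ≤ Ex μ' (t' i))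
  have sub : ∀ i ∈ S.filter good, i ∈ S := fun i hi => (mem_filter.mp hi).1
  obtain ⟨ρ, F, ν, ν', lam, h, hv⟩ := good_ctx hμ hμ' (e := e ^ 4) (by positivity)
    (pow_le_one₀ he.le he1) hM (S := S.filter good) (c := c) (fun i hi => hc i (sub i hi))
    (s := s) (t := t) (s' := s') (t' := t')
    (fun i hi x => (hs i (sub i hi) x).1) (fun i hi x => (ht i (sub i hi) x).1)
    (fun i hi x => (hs' i (sub i hi) x).1) (fun i hi x => (ht' i (sub i hi) x).1)
    (fun i hi x => (hs i (sub i hi) x).2) (fun i hi x => (ht i (sub i hi) x).2)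
    (fun i hi x => (hs' i (sub i hi) x).2) (fun i hi x => (ht' i (sub i hi) x).2)
    (fun i hi => (mem_filter.mp hi).2.2.1) (fun i hi => (mem_filter.mp hi).2.2.2.1)
    (fun i hi => (mem_filter.mp hi).2.2.2.2.1) (fun i hi => (mem_filter.mp hi).2.2.2.2.2) hκ0 hκ1
  set k : ι → V → V → ℝ := fun i x y => if main i then κ x y else 1 with hk
  set k' : ι → V → V → ℝ := fun i x y => if main i then 1 - κ x y else 1 with hk'
  set O : ι → ℝ := fun i => rt (Ex μ (s i) * Ex μ' (t i)) * rt (Ex μ (s' i) * Ex μ' (t' i))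
    with hO
  have hO0 : ∀ i, 0 ≤ O i := fun i => mul_nonneg (rt_nonneg _) (rt_nonneg _)
  set B := ∑ i ∈ S, c i * (if main i then gam else 1) * O i + (∑ i ∈ S, c i) * e with hB
  have tot : ∑ i ∈ S, c i * joint F ν ν' (s i) (t i) (s' i) (t' i) (k i) (k' i) ≤ B := by
    rw [hB, sum_mul, ← sum_add_distrib, ← sum_filter_add_sum_filter_not S good,
      ← sum_filter_add_sum_filter_not S good]
    refine add_le_add ?_ (sum_le_sum fun i hi => ?_)
    · have e1 : ∑ i ∈ S.filter good, c i * joint F ν ν' (s i) (t i) (s' i) (t' i) (k i) (k' i) =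
          ∑ i ∈ S.filter good, c i * joint F ν ν' (s i) (t i) (s' i) (t' i) κ
            (fun x y => 1 - κ x y) :=
        sum_congr rfl fun i hi => by simp only [hk, hk', if_pos (mem_filter.mp hi).2.1]
      rw [e1]
      refine hv.trans ?_
      rw [mul_sum]
      refine sum_le_sum fun i hi => ?_
      rw [if_pos (mem_filter.mp hi).2.1]
      have := mul_nonneg (hc i (sub i hi)) he.le
      simp only [hO]
      linarith
    · obtain ⟨hi, hg⟩ := mem_filter.mp hi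
      have j := joint_le_old h (k := k i) (k' := k' i) (fun x => (hs i hi x).1)
        (fun x => (ht i hi x).1) (fun x => (hs' i hi x).1) (fun x => (ht' i hi x).1)
        (fun x y => by simp only [hk]; split_ifs; exacts [hκ1 x y, le_rfl])
        (fun x y => by simp only [hk']; split_ifs; exacts [by linarith [hκ0 x y], le_rfl])
      have j2 := mul_le_mul_of_nonneg_left j (hc i hi)
      by_cases hm : main i
      · rw [if_pos hm]
        have := old_small he.le (Ex_nonneg hμ.nonneg fun x => (hs i hi x).1)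
          (Ex_nonneg hμ'.nonneg fun x => (ht i hi x).1)
          (Ex_nonneg hμ.nonneg fun x => (hs' i hi x).1)
          (Ex_nonneg hμ'.nonneg fun x => (ht' i hi x).1)
          (Ex_le_one hμ fun x => (hs i hi x).2) (Ex_le_one hμ' fun x => (ht i hi x).2)
          (Ex_le_one hμ fun x => (hs' i hi x).2) (Ex_le_one hμ' fun x => (ht' i hi x).2)
          (fun hh => hg ⟨hm, hh⟩)
        have j3 := mul_le_mul_of_nonneg_left this (hc i hi)
        have j4 := mul_nonneg (mul_nonneg (hc i hi) gam_pos.le) (hO0 i)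
        linarith
      · rw [if_neg hm]
        have := mul_nonneg (hc i hi) he.le
        simp only [hO]
        linarith
  have hl0 : ∀ i ∈ F, 0 ≤ lam i := fun i hi =>
    h.mass i hi ▸ sum_nonneg fun x _ => h.nn i hi x
  have hl1 : ∑ i ∈ F, lam i = 1 := by
    rw [← sum_congr rfl h.mass, sum_comm, ← hμ.total]
    exact sum_congr rfl fun x _ => h.sum x
  obtain ⟨j, hj, hj0, hjB⟩ := exists_le_avg F lam (fun j => ∑ i ∈ S, c i *
      (rt (Bi (ν j) (ν' j) (s i) (t i) (k i)) * rt (Bi (ν j) (ν' j) (s' i) (t' i) (k' i)))) B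
    hl0 hl1 (fun j _ => sum_nonneg fun i hi =>
      mul_nonneg (hc i hi) (mul_nonneg (rt_nonneg _) (rt_nonneg _)))
    (by
      rw [sum_comm]
      refine le_trans (le_of_eq (sum_congr rfl fun i _ => ?_)) tot
      unfold joint
      rw [mul_sum])
  refine ⟨fun x => ν j x / lam j, fun x => ν' j x / lam j,
    ⟨fun x => div_nonneg (h.nn j hj x) hj0.le, ?_⟩,
    ⟨fun x => div_nonneg (h.nn' j hj x) hj0.le, ?_⟩, fun x => ?_, fun x => ?_, ?_⟩
  · rw [← sum_div, h.mass j hj, div_self hj0.ne']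
  · rw [← sum_div, h.mass' j hj, div_self hj0.ne']
  · rw [div_le_iff₀ hj0]; have := h.dom j hj x; linarith
  · rw [div_le_iff₀ hj0]; have := h.dom' j hj x; linarith
  · simp only [Bi_div, rt_scale hj0, ← mul_div_assoc]
    rw [← sum_div, div_le_iff₀ hj0, mul_comm B]
    exact hjB

end Pool.Agent.P.MP_00ec07_co
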